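import Mathlib

open Polynomial Set

namespace Pool.Agent.H.MP_397872_lc

/-- The field of real algebraic numbers. -/
noncomputable abbrev Ralg : IntermediateField ℚ ℝ := algebraicClosure ℚ ℝ

theorem mem_Ralg {x : ℝ} : x ∈ Ralg ↔ IsAlgebraic ℚ x := mem_algebraicClosure_iff

theorem sqrt_mem {x : ℝ} (hx : x ∈ Ralg) (h0 : 0 ≤ x) : √x ∈ Ralg := by
  rw [mem_Ralg] at *
  apply IsAlgebraic.of_pow (n := 2) (by norm_num)
  rwa [Real.sq_sqrt h0]

theorem exists_cube (r : ℝ) : ∃ s : ℝ, s ^ 3 = r := by
  have hc : Continuous fun s : ℝ => s ^ 3 := by fun_prop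
  have h1 : Filter.Tendsto (fun s : ℝ => s ^ 3) Filter.atTop Filter.atTop :=
    Filter.tendsto_pow_atTop (by norm_num)
  have h2 : Filter.Tendsto (fun s : ℝ => s ^ 3) Filter.atBot Filter.atBot := by
    have := Filter.tendsto_neg_atTop_atBot.comp (h1.comp Filter.tendsto_neg_atBot_atTop)
    refine this.congr fun s => ?_
    simp only [Function.comp]
    ring
  exact hc.surjective h1 h2 r

theorem exists_cube_mem {r : ℝ} (hr : r ∈ Ralg) : ∃ s : ℝ, s ∈ Ralg ∧ s ^ 3 = r := by
  obtain ⟨s, hs⟩ := exists_cube r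
  refine ⟨s, ?_, hs⟩
  rw [mem_Ralg] at *
  apply IsAlgebraic.of_pow (n := 3) (by norm_num)
  rwa [hs]

/-- real and imaginary parts of algebraic numbers are algebraic. -/
theorem re_im_mem {z : ℂ} (hz : IsAlgebraic ℚ z) : z.re ∈ Ralg ∧ z.im ∈ Ralg := by
  have hI : IsAlgebraic ℚ Complex.I := by
    refine ⟨X ^ 2 + 1, ?_, by simp⟩
    intro h
    have := congrArg (fun p => eval 0 p) h
    simp at this
  have hc : IsAlgebraic ℚ (starRingEnd ℂ z) := by
    obtain ⟨p, hp, hpz⟩ := hz
    refine ⟨p, hp, ?_⟩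
    have h1 : aeval (starRingEnd ℂ z) p = starRingEnd ℂ (aeval z p) := by
      exact aeval_algHom_apply (Complex.conjAe.restrictScalars ℚ).toAlgHom z p
    rw [h1, hpz, map_zero]
  have key : ∀ r : ℝ, IsAlgebraic ℚ (r : ℂ) → IsAlgebraic ℚ r := by
    intro r hr
    exact (isAlgebraic_algebraMap_iff (R := ℚ) (A := ℂ) (S := ℝ)
      (algebraMap ℝ ℂ).injective).1 hr
  have h2 : IsAlgebraic ℚ (2 : ℂ) := by
    simpa using isAlgebraic_algebraMap (R := ℚ) (A := ℂ) (2 : ℚ)
  constructor
  · rw [mem_Ralg]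
    apply key
    have : (z.re : ℂ) = (z + starRingEnd ℂ z) * 2⁻¹ := by
      rw [Complex.add_conj]
      push_cast
      ring
    rw [this]
    exact (hz.add hc).mul h2.inv
  · rw [mem_Ralg]
    apply key
    have : (z.im : ℂ) = (z - starRingEnd ℂ z) * (2⁻¹ * Complex.I⁻¹) := by
      rw [Complex.sub_conj]
      have := Complex.I_ne_zero
      push_cast
      field_simp
    rw [this]
    exact (hz.sub hc).mul (h2.inv.mul hI.inv)

/-- A continuous function with `0 ≤ (t - x) f t` for all `t` vanishes at `x`. -/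
theorem zero_of_sign {f : ℝ → ℝ} (hf : Continuous f) {x : ℝ} (h : ∀ t, 0 ≤ (t - x) * f t) :
    f x = 0 := by
  apply le_antisymm
  · have hcl : IsClosed {t : ℝ | f t ≤ 0} := isClosed_le hf continuous_const
    have hsub : Iio x ⊆ {t : ℝ | f t ≤ 0} := by
      intro t ht
      by_contra hn
      simp only [mem_ofPred_eq, not_le] at hn
      have := mul_neg_of_neg_of_pos (sub_neg.2 (mem_Iio.1 ht)) hn
      linarith [h t]
    have := hcl.closure_subset_iff.2 hsub
    rw [closure_Iio] at this
    exact this (mem_Iic.2 le_rfl)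
  · have hcl : IsClosed {t : ℝ | 0 ≤ f t} := isClosed_le continuous_const hf
    have hsub : Ioi x ⊆ {t : ℝ | 0 ≤ f t} := by
      intro t ht
      by_contra hn
      simp only [mem_ofPred_eq, not_le] at hn
      have := mul_neg_of_pos_of_neg (sub_pos.2 (mem_Ioi.1 ht)) hn
      linarith [h t]
    have := hcl.closure_subset_iff.2 hsub
    rw [closure_Ioi] at this
    exact this (mem_Ici.2 le_rfl)

/-- A polynomial over the real algebraic numbers that is nonnegative on `ℝ` is a sum of two
squares. -/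
theorem sos (p : Ralg[X]) (h : ∀ x : ℝ, 0 ≤ aeval x p) : ∃ a b : Ralg[X], p = a ^ 2 + b ^ 2 := by
  induction hn : p.natDegree using Nat.strong_induction_on generalizing p with
  | _ n ih =>
  subst hn
  by_cases hp0 : p = 0
  · exact ⟨0, 0, by simp [hp0]⟩
  by_cases hd : p.natDegree = 0
  · rw [natDegree_eq_zero] at hd
    obtain ⟨c, rfl⟩ := hd
    have h0 := h 0
    rw [aeval_C] at h0
    have hc : (0:ℝ) ≤ (c : ℝ) := h0
    refine ⟨C ⟨√(c:ℝ), sqrt_mem c.2 hc⟩, 0, ?_⟩
    rw [← C_pow]
    have : (⟨√(c:ℝ), sqrt_mem c.2 hc⟩ : Ralg) ^ 2 = c := by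
      apply Subtype.ext
      push_cast
      exact Real.sq_sqrt hc
    rw [this]
    ring
  -- a complex root
  have hdeg : p.degree ≠ 0 := by
    intro h0
    exact hd (natDegree_eq_of_degree_eq_some h0)
  obtain ⟨z, hz⟩ := IsAlgClosed.exists_aeval_eq_zero ℂ p hdeg
  have hzalg : IsAlgebraic ℚ z := by
    have h1 : IsAlgebraic Ralg z := ⟨p, hp0, hz⟩
    have h2 := algebraicClosure.isAlgebraic ℚ ℝ
    exact @IsAlgebraic.restrictScalars ℚ Ralg ℂ _ _ _ _ _ _ _ _ h2 _ h1
  obtain ⟨hx, hy⟩ := re_im_mem hzalg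
  set x : Ralg := ⟨z.re, hx⟩ with hxdef
  set y : Ralg := ⟨z.im, hy⟩ with hydef
  by_cases hy0 : z.im = 0
  · -- real root
    have hzr : z = ((x : ℝ) : ℂ) := by
      apply Complex.ext <;> simp [hxdef, hy0]
    have hroot : p.eval x = 0 := by
      have h1 : ((algebraMap Ralg ℂ) (p.eval x)) = 0 := by
        rw [← aeval_algebraMap_apply_eq_algebraMap_eval]
        have : algebraMap Ralg ℂ x = z := by rw [hzr]; rfl
        rw [this, hz]
      exact (map_eq_zero _).1 h1
    obtain ⟨p1, hp1⟩ := (dvd_iff_isRoot (p := p) (a := x)).2 hroot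
    have hev : ∀ t : ℝ, aeval t p = (t - (x:ℝ)) * aeval t p1 := by
      intro t
      rw [hp1, map_mul, map_sub, aeval_X, aeval_C]
      rfl
    have hcont : ∀ q : Ralg[X], Continuous fun t : ℝ => aeval t q := by
      intro q
      exact q.continuous_aeval
    have h1 : aeval (x:ℝ) p1 = 0 := zero_of_sign (hcont p1) (fun t => by rw [← hev]; exact h t)
    have hroot1 : p1.eval x = 0 := by
      have h2 : ((algebraMap Ralg ℝ) (p1.eval x)) = 0 := by
        rw [← aeval_algebraMap_apply_eq_algebraMap_eval]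
        exact h1
      exact (map_eq_zero _).1 h2
    obtain ⟨p2, hp2⟩ := (dvd_iff_isRoot (p := p1) (a := x)).2 hroot1
    have hp20 : p2 ≠ 0 := by
      rintro rfl
      rw [mul_zero] at hp2
      rw [hp2, mul_zero] at hp1
      exact hp0 hp1
    have hev2 : ∀ t : ℝ, aeval t p = (t - (x:ℝ)) ^ 2 * aeval t p2 := by
      intro t
      rw [hev, hp2, map_mul, map_sub, aeval_X, aeval_C]
      have : (algebraMap Ralg ℝ) x = (x : ℝ) := rfl
      rw [this]
      ring
    have hnn : ∀ t : ℝ, 0 ≤ aeval t p2 := by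
      have hcl : IsClosed {t : ℝ | 0 ≤ aeval t p2} := isClosed_le continuous_const (hcont p2)
      have hdense : Dense ({(x:ℝ)}ᶜ : Set ℝ) := dense_compl_singleton _
      have hsub : ({(x:ℝ)}ᶜ : Set ℝ) ⊆ {t : ℝ | 0 ≤ aeval t p2} := by
        intro t ht
        have ht' : t - (x:ℝ) ≠ 0 := sub_ne_zero.2 ht
        have h3 := h t
        rw [hev2] at h3
        by_contra hneg
        simp only [mem_ofPred_eq, not_le] at hneg
        have : (t - (x:ℝ)) ^ 2 * aeval t p2 < 0 :=
          mul_neg_of_pos_of_neg (by positivity) hneg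
        linarith
      have := hcl.closure_subset_iff.2 hsub
      rw [hdense.closure_eq] at this
      exact fun t => this (mem_univ t)
    have hdeg2 : p2.natDegree < p.natDegree := by
      rw [hp1, hp2, ← mul_assoc, natDegree_mul (by
        exact mul_ne_zero (X_sub_C_ne_zero x) (X_sub_C_ne_zero x)) hp20,
        natDegree_mul (X_sub_C_ne_zero x) (X_sub_C_ne_zero x), natDegree_X_sub_C]
      omega
    obtain ⟨a, b, hab⟩ := ih _ hdeg2 p2 hnn rfl
    refine ⟨(X - C x) * a, (X - C x) * b, ?_⟩
    rw [hp1, hp2, hab]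
    ring
  · -- a pair of complex roots
    set m : Ralg[X] := (X - C x) ^ 2 + C y ^ 2 with hm
    have hmdeg : m.natDegree = 2 := by
      rw [hm, ← C_pow]
      rw [natDegree_add_C, natDegree_pow, natDegree_X_sub_C]
    have hmm : m.Monic := by
      rw [hm, ← C_pow]
      have h1 : ((X - C x) ^ 2 : Ralg[X]).Monic := (monic_X_sub_C x).pow 2
      apply h1.add_of_left
      refine degree_C_le.trans_lt ?_
      rw [degree_pow, degree_X_sub_C]
      norm_num
    have hmz : aeval z m = 0 := by
      rw [hm]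
      simp only [map_add, map_pow, map_sub, aeval_X, aeval_C]
      have e1 : algebraMap Ralg ℂ x = (z.re : ℂ) := rfl
      have e2 : algebraMap Ralg ℂ y = (z.im : ℂ) := rfl
      rw [e1, e2]
      have hz' : z = z.re + z.im * Complex.I := (Complex.re_add_im z).symm
      have hI := Complex.I_sq
      have : z - (z.re : ℂ) = z.im * Complex.I := by
        linear_combination hz'
      rw [this]
      linear_combination (z.im : ℂ) ^ 2 * hI
    have hr : p %ₘ m = 0 := by
      have h1 : aeval z (p %ₘ m) = 0 := by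
        have h2 := congrArg (aeval z) (modByMonic_add_div p m)
        rw [map_add, map_mul, hmz, zero_mul, add_zero, hz] at h2
        exact h2
      have h2 : (p %ₘ m).natDegree < 2 := by
        rw [← hmdeg]
        apply natDegree_modByMonic_lt p hmm
        intro h3
        rw [h3] at hmdeg
        simp at hmdeg
      obtain ⟨α, β, hαβ⟩ : ∃ α β : Ralg, p %ₘ m = C α * X + C β :=
        exists_eq_X_add_C_of_natDegree_le_one (by omega)
      rw [hαβ] at h1 ⊢
      simp only [map_add, map_mul, aeval_X, aeval_C] at h1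
      have e1 : algebraMap Ralg ℂ α = ((α : ℝ) : ℂ) := rfl
      have e2 : algebraMap Ralg ℂ β = ((β : ℝ) : ℂ) := rfl
      rw [e1, e2] at h1
      have him := congrArg Complex.im h1
      have hre := congrArg Complex.re h1
      simp at him hre
      have hα0 : (α : ℝ) = 0 := by
        rcases him with h3 | h3
        · exact_mod_cast h3
        · exact absurd h3 hy0
      have hα1 : α = 0 := by exact_mod_cast hα0
      rw [hα1] at hre ⊢
      have hβ1 : β = 0 := by simpa using hre
      rw [hβ1]
      simp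
    have hpm : p = m * (p /ₘ m) := by
      have h2 := modByMonic_add_div p m
      rw [hr, zero_add] at h2
      exact h2.symm
    set p1 := p /ₘ m with hp1
    have hp10 : p1 ≠ 0 := by
      intro h0
      rw [h0, mul_zero] at hpm
      exact hp0 hpm
    have hdeg1 : p1.natDegree < p.natDegree := by
      rw [hpm, natDegree_mul hmm.ne_zero hp10, hmdeg]
      omega
    have hnn : ∀ t : ℝ, 0 ≤ aeval t p1 := by
      intro t
      have h3 := h t
      rw [hpm, map_mul] at h3
      have hmpos : 0 < aeval t m := by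
        rw [hm]
        simp only [map_add, map_pow, map_sub, aeval_X, aeval_C]
        have e1 : algebraMap Ralg ℝ x = z.re := rfl
        have e2 : algebraMap Ralg ℝ y = z.im := rfl
        rw [e1, e2]
        have : 0 < z.im ^ 2 := by positivity
        nlinarith [sq_nonneg (t - z.re)]
      by_contra hneg
      push Not at hneg
      have := mul_neg_of_pos_of_neg hmpos hneg
      linarith
    obtain ⟨a, b, hab⟩ := ih _ hdeg1 p1 hnn rfl
    refine ⟨(X - C x) * a - C y * b, (X - C x) * b + C y * a, ?_⟩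
    rw [hpm, hab, hm]
    ring

end Pool.Agent.H.MP_397872_lc
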