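import Mathlib

namespace Pool.Agent.H.MP_397872_lc

/-- Sums of two squares vanish only trivially. -/
def FR (F : Type) [Field F] : Prop := ∀ a b : F, a ^ 2 + b ^ 2 = 0 → a = 0

/-- Relations uniformly defined by one positive existential equation. -/
def Ex {α : Type} (R : ∀ (F : Type) [Field F], (α → F) → Prop) : Prop :=
  ∃ (β : Type) (_ : Finite β) (P : FreeCommRing (α ⊕ β)),
    ∀ (F : Type) [Field F], FR F → ∀ v : α → F,
      (R F v ↔ ∃ y : β → F, FreeCommRing.lift (Sum.elim v y) P = 0)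

theorem lift_map {α β : Type} {F : Type} [CommRing F] (g : α → β) (f : β → F)
    (P : FreeCommRing α) :
    FreeCommRing.lift f (FreeCommRing.map g P) = FreeCommRing.lift (f ∘ g) P := by
  have h : (FreeCommRing.lift f).comp (FreeCommRing.map g) = FreeCommRing.lift (f ∘ g) := by
    apply FreeCommRing.hom_ext
    intro x
    simp
  exact DFunLike.congr_fun h P

theorem map_lift {α : Type} {F G : Type} [CommRing F] [CommRing G] (φ : F →+* G) (f : α → F)
    (P : FreeCommRing α) :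
    φ (FreeCommRing.lift f P) = FreeCommRing.lift (φ ∘ f) P := by
  have h : φ.comp (FreeCommRing.lift f) = FreeCommRing.lift (φ ∘ f) := by
    apply FreeCommRing.hom_ext
    intro x
    simp
  exact DFunLike.congr_fun h P

section
variable {α : Type}

theorem Ex.congr {R S : ∀ (F : Type) [Field F], (α → F) → Prop} (hR : Ex R)
    (h : ∀ (F : Type) [Field F], FR F → ∀ v : α → F, (S F v ↔ R F v)) : Ex S := by
  obtain ⟨β, hβ, P, hP⟩ := hR
  exact ⟨β, hβ, P, fun F _ hF v => (h F hF v).trans (hP F hF v)⟩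

theorem Ex.eq (p q : FreeCommRing α) :
    Ex (fun F _ v => FreeCommRing.lift v p = FreeCommRing.lift v q) := by
  refine ⟨Empty, inferInstance, FreeCommRing.map Sum.inl (p - q), fun F _ hF v => ?_⟩
  constructor
  · intro h
    refine ⟨Empty.elim, ?_⟩
    rw [lift_map, Sum.elim_comp_inl, map_sub, h, sub_self]
  · rintro ⟨y, hy⟩
    rw [lift_map, Sum.elim_comp_inl, map_sub, sub_eq_zero] at hy
    exact hy

theorem Ex.and {R S : ∀ (F : Type) [Field F], (α → F) → Prop} (hR : Ex R) (hS : Ex S) :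
    Ex (fun F _ v => R F v ∧ S F v) := by
  obtain ⟨β, hβ, P, hP⟩ := hR
  obtain ⟨γ, hγ, Q, hQ⟩ := hS
  refine ⟨β ⊕ γ, inferInstance, (FreeCommRing.map (Sum.map id Sum.inl) P) ^ 2 +
    (FreeCommRing.map (Sum.map id Sum.inr) Q) ^ 2, fun F _ hF v => ?_⟩
  have key : ∀ y : β ⊕ γ → F, FreeCommRing.lift (Sum.elim v y)
      ((FreeCommRing.map (Sum.map id Sum.inl) P) ^ 2 +
        (FreeCommRing.map (Sum.map id Sum.inr) Q) ^ 2) =
      (FreeCommRing.lift (Sum.elim v (y ∘ Sum.inl)) P) ^ 2 +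
        (FreeCommRing.lift (Sum.elim v (y ∘ Sum.inr)) Q) ^ 2 := by
    intro y
    rw [map_add, map_pow, map_pow, lift_map, lift_map, Sum.elim_comp_map, Sum.elim_comp_map]
    rfl
  beta_reduce
  rw [hP F hF v, hQ F hF v]
  constructor
  · rintro ⟨⟨y, hy⟩, ⟨z, hz⟩⟩
    refine ⟨Sum.elim y z, ?_⟩
    rw [key, Sum.elim_comp_inl, Sum.elim_comp_inr, hy, hz]
    ring
  · rintro ⟨y, hy⟩
    rw [key] at hy
    have h1 := hF _ _ hy
    rw [add_comm] at hy
    have h2 := hF _ _ hy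
    exact ⟨⟨_, h1⟩, ⟨_, h2⟩⟩

theorem Ex.or {R S : ∀ (F : Type) [Field F], (α → F) → Prop} (hR : Ex R) (hS : Ex S) :
    Ex (fun F _ v => R F v ∨ S F v) := by
  obtain ⟨β, hβ, P, hP⟩ := hR
  obtain ⟨γ, hγ, Q, hQ⟩ := hS
  refine ⟨β ⊕ γ, inferInstance, (FreeCommRing.map (Sum.map id Sum.inl) P) *
    (FreeCommRing.map (Sum.map id Sum.inr) Q), fun F _ hF v => ?_⟩
  have key : ∀ y : β ⊕ γ → F, FreeCommRing.lift (Sum.elim v y)
      ((FreeCommRing.map (Sum.map id Sum.inl) P) *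
        (FreeCommRing.map (Sum.map id Sum.inr) Q)) =
      (FreeCommRing.lift (Sum.elim v (y ∘ Sum.inl)) P) *
        (FreeCommRing.lift (Sum.elim v (y ∘ Sum.inr)) Q) := by
    intro y
    rw [map_mul, lift_map, lift_map, Sum.elim_comp_map, Sum.elim_comp_map]
    rfl
  beta_reduce
  rw [hP F hF v, hQ F hF v]
  constructor
  · rintro (⟨y, hy⟩ | ⟨z, hz⟩)
    · refine ⟨Sum.elim y 0, ?_⟩
      rw [key, Sum.elim_comp_inl, hy, zero_mul]
    · refine ⟨Sum.elim 0 z, ?_⟩
      rw [key, Sum.elim_comp_inr, hz, mul_zero]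
  · rintro ⟨y, hy⟩
    rw [key] at hy
    rcases mul_eq_zero.1 hy with h | h
    · exact Or.inl ⟨_, h⟩
    · exact Or.inr ⟨_, h⟩

theorem Ex.ex {γ : Type} [Finite γ] {R : ∀ (F : Type) [Field F], (α ⊕ γ → F) → Prop} (hR : Ex R) :
    Ex (fun F _ (v : α → F) => ∃ z : γ → F, R F (Sum.elim v z)) := by
  obtain ⟨β, hβ, P, hP⟩ := hR
  refine ⟨γ ⊕ β, inferInstance, FreeCommRing.map (Equiv.sumAssoc α γ β) P, fun F _ hF v => ?_⟩
  have key : ∀ y : γ ⊕ β → F, FreeCommRing.lift (Sum.elim v y)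
      (FreeCommRing.map (Equiv.sumAssoc α γ β) P) =
      FreeCommRing.lift (Sum.elim (Sum.elim v (y ∘ Sum.inl)) (y ∘ Sum.inr)) P := by
    intro y
    rw [lift_map]
    congr 2
    funext x
    rcases x with (x | x) | x <;> rfl
  constructor
  · rintro ⟨z, hz⟩
    obtain ⟨y, hy⟩ := (hP F hF _).1 hz
    refine ⟨Sum.elim z y, ?_⟩
    rw [key]
    exact hy
  · rintro ⟨y, hy⟩
    rw [key] at hy
    exact ⟨_, (hP F hF _).2 ⟨_, hy⟩⟩

theorem Ex.comp {γ : Type} {R : ∀ (F : Type) [Field F], (α → F) → Prop} (hR : Ex R)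
    (σ : α → γ) : Ex (fun F _ (v : γ → F) => R F (v ∘ σ)) := by
  obtain ⟨β, hβ, P, hP⟩ := hR
  refine ⟨β, inferInstance, FreeCommRing.map (Sum.map σ id) P, fun F _ hF v => ?_⟩
  beta_reduce
  rw [hP F hF]
  simp only [lift_map, Sum.elim_comp_map, Function.comp_id]

theorem Ex.true : Ex (fun F _ (_ : α → F) => True) :=
  (Ex.eq (0 : FreeCommRing α) 0).congr (by simp)

theorem Ex.forall_finset {ι : Type} (R : ι → ∀ (F : Type) [Field F], (α → F) → Prop)
    (hR : ∀ i, Ex (R i)) (s : Finset ι) :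
    Ex (fun F _ (v : α → F) => ∀ i ∈ s, R i F v) := by
  classical
  induction s using Finset.induction_on with
  | empty => exact Ex.true.congr (by simp)
  | insert i s hi ih =>
    refine ((hR i).and ih).congr fun F _ _ v => ?_
    simp

theorem Ex.forall {ι : Type} [Finite ι] (R : ι → ∀ (F : Type) [Field F], (α → F) → Prop)
    (hR : ∀ i, Ex (R i)) :
    Ex (fun F _ (v : α → F) => ∀ i, R i F v) := by
  have := Fintype.ofFinite ι
  exact (Ex.forall_finset R hR Finset.univ).congr (by simp)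

theorem Ex.ne (p q : FreeCommRing α) :
    Ex (fun F _ v => FreeCommRing.lift v p ≠ FreeCommRing.lift v q) := by
  refine ⟨Unit, inferInstance, FreeCommRing.map Sum.inl (p - q) * FreeCommRing.of (Sum.inr ()) - 1,
    fun F _ hF v => ?_⟩
  have key : ∀ y : Unit → F, FreeCommRing.lift (Sum.elim v y)
      (FreeCommRing.map Sum.inl (p - q) * FreeCommRing.of (Sum.inr ()) - 1) =
      (FreeCommRing.lift v p - FreeCommRing.lift v q) * y () - 1 := by
    intro y
    rw [map_sub, map_mul, lift_map, Sum.elim_comp_inl, map_sub, map_one, FreeCommRing.lift_of]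
    rfl
  constructor
  · intro h
    refine ⟨fun _ => (FreeCommRing.lift v p - FreeCommRing.lift v q)⁻¹, ?_⟩
    rw [key, mul_inv_cancel₀ (sub_ne_zero.2 h), sub_self]
  · rintro ⟨y, hy⟩ h
    rw [key, h, sub_self, zero_mul, zero_sub, neg_eq_zero] at hy
    exact one_ne_zero hy

end

end Pool.Agent.H.MP_397872_lc
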