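import Mathlib
import Pool.Agent.H.MP_397872_lc.Def

namespace Pool.Agent.H.MP_397872_lc

/-- Common specialization through a ring with two maps to fields. -/
theorem spec_general {A F₁ F₂ : Type} [CommRing A] [Field F₁] [Field F₂] (φ₁ : A →+* F₁)
    (φ₂ : A →+* F₂) (hker : ∀ a, φ₁ a = 0 → φ₂ a = 0) {κ : Type} (y : κ → F₁) (u v : κ → A)
    (hy : ∀ j, y j * φ₁ (v j) = φ₁ (u j)) (hv : ∀ j, φ₂ (v j) ≠ 0) :
    ∃ z : κ → F₂, ∀ p : FreeCommRing κ, FreeCommRing.lift y p = 0 → FreeCommRing.lift z p = 0 := by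
  -- the submonoid of elements invertible on both sides
  let M : Submonoid A :=
    { carrier := {a | φ₂ a ≠ 0}
      one_mem' := by
        show φ₂ 1 ≠ 0
        rw [map_one]; exact one_ne_zero
      mul_mem' := by
        intro a b ha hb
        show φ₂ (a * b) ≠ 0
        rw [map_mul]; exact mul_ne_zero ha hb }
  have hM2 : ∀ m : M, IsUnit (φ₂ m) := fun m => (Ne.isUnit m.2 : IsUnit (φ₂ m))
  have hM1 : ∀ m : M, IsUnit (φ₁ m) := fun m => Ne.isUnit (fun h => m.2 (hker _ h))
  let L := Localization M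
  let ψ₁ : L →+* F₁ := IsLocalization.lift hM1
  let ψ₂ : L →+* F₂ := IsLocalization.lift hM2
  let l : κ → L := fun j => IsLocalization.mk' L (u j) (⟨v j, hv j⟩ : M)
  have hl1 : ∀ j, ψ₁ (l j) = y j := by
    intro j
    show IsLocalization.lift hM1 (IsLocalization.mk' L (u j) (⟨v j, hv j⟩ : M)) = y j
    rw [IsLocalization.lift_mk'_spec, ← hy j, mul_comm]
  refine ⟨fun j => ψ₂ (l j), fun p hp => ?_⟩
  have e1 : FreeCommRing.lift y p = ψ₁ (FreeCommRing.lift l p) := by
    rw [map_lift]
    congr 2
    funext j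
    exact (hl1 j).symm
  have e2 : FreeCommRing.lift (fun j => ψ₂ (l j)) p = ψ₂ (FreeCommRing.lift l p) := by
    rw [map_lift]
    rfl
  rw [e1] at hp
  rw [e2]
  obtain ⟨f, d, hfd⟩ := IsLocalization.exists_mk'_eq M (FreeCommRing.lift l p)
  rw [← hfd] at hp ⊢
  have h1 : φ₁ f = 0 := by
    have : IsLocalization.lift hM1 (IsLocalization.mk' L f d) = 0 := hp
    rw [IsLocalization.lift_mk'_spec, mul_zero] at this
    exact this
  have h2 : φ₂ f = 0 := hker f h1
  show IsLocalization.lift hM2 (IsLocalization.mk' L f d) = 0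
  rw [IsLocalization.lift_mk'_spec, h2, mul_zero]

/-- `Spec F₁ F₂`: every finite tuple of `F₁` specializes to `F₂`. -/
def Spec (F₁ F₂ : Type) [Field F₁] [Field F₂] : Prop :=
  ∀ (κ : Type) [Finite κ] (y : κ → F₁), ∃ z : κ → F₂,
    ∀ p : FreeCommRing κ, FreeCommRing.lift y p = 0 → FreeCommRing.lift z p = 0

theorem Spec.of_hom {F₁ F₂ : Type} [Field F₁] [Field F₂] (φ : F₁ →+* F₂) : Spec F₁ F₂ := by
  intro κ _ y
  refine ⟨φ ∘ y, fun p hp => ?_⟩
  rw [← map_lift, hp, map_zero]

open Polynomial in
/-- Specialization passes to rational function fields. -/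
theorem Spec.ratFunc {F₁ F₂ : Type} [Field F₁] [Field F₂] (h : Spec F₁ F₂) :
    Spec (RatFunc F₁) (RatFunc F₂) := by
  classical
  intro κ _ y
  have := Fintype.ofFinite κ
  -- a bound for all degrees
  let N : ℕ := ∑ j, ((y j).num.natDegree + (y j).denom.natDegree + 1)
  have hN : ∀ j, (y j).num.natDegree < N ∧ (y j).denom.natDegree < N := by
    intro j
    have h1 : (y j).num.natDegree + (y j).denom.natDegree + 1 ≤ N :=
      Finset.single_le_sum (f := fun j => (y j).num.natDegree + (y j).denom.natDegree + 1)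
        (fun _ _ => Nat.zero_le _) (Finset.mem_univ j)
    omega
  -- all coefficients
  let a : (κ ⊕ κ) × Fin N → F₁ := fun x => match x.1 with
    | Sum.inl j => (y j).num.coeff x.2
    | Sum.inr j => (y j).denom.coeff x.2
  obtain ⟨b, hb⟩ := h ((κ ⊕ κ) × Fin N) a
  let A := Polynomial (FreeCommRing ((κ ⊕ κ) × Fin N))
  let φ₁ : A →+* RatFunc F₁ := (algebraMap F₁[X] (RatFunc F₁)).comp
    (Polynomial.mapRingHom (FreeCommRing.lift a))
  let φ₂ : A →+* RatFunc F₂ := (algebraMap F₂[X] (RatFunc F₂)).comp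
    (Polynomial.mapRingHom (FreeCommRing.lift b))
  let u : κ → A := fun j => ∑ i : Fin N, Polynomial.monomial (i : ℕ)
    (FreeCommRing.of (Sum.inl j, i) : FreeCommRing ((κ ⊕ κ) × Fin N))
  let v : κ → A := fun j => ∑ i : Fin N, Polynomial.monomial (i : ℕ)
    (if (i : ℕ) = (y j).denom.natDegree then 1 else
      (FreeCommRing.of (Sum.inr j, i) : FreeCommRing ((κ ⊕ κ) × Fin N)))
  have hu : ∀ j, φ₁ (u j) = algebraMap F₁[X] (RatFunc F₁) (y j).num := by
    intro j
    show algebraMap F₁[X] (RatFunc F₁) (Polynomial.mapRingHom _ (u j)) = _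
    congr 1
    simp only [u, map_sum, Polynomial.coe_mapRingHom, Polynomial.map_monomial]
    conv_rhs => rw [Polynomial.as_sum_range' (y j).num N (hN j).1, Finset.sum_range]
    apply Finset.sum_congr rfl
    intro i _
    simp [a]
  have hv : ∀ j, φ₁ (v j) = algebraMap F₁[X] (RatFunc F₁) (y j).denom := by
    intro j
    show algebraMap F₁[X] (RatFunc F₁) (Polynomial.mapRingHom _ (v j)) = _
    congr 1
    simp only [v, map_sum, Polynomial.coe_mapRingHom, Polynomial.map_monomial]
    conv_rhs => rw [Polynomial.as_sum_range' (y j).denom N (hN j).2, Finset.sum_range]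
    apply Finset.sum_congr rfl
    intro i _
    congr 1
    split_ifs with hi
    · rw [map_one, hi]
      exact (RatFunc.monic_denom (y j)).coeff_natDegree.symm
    · simp [a]
  have hinj1 : Function.Injective (algebraMap F₁[X] (RatFunc F₁)) :=
    RatFunc.algebraMap_injective F₁
  have hinj2 : Function.Injective (algebraMap F₂[X] (RatFunc F₂)) :=
    RatFunc.algebraMap_injective F₂
  refine spec_general φ₁ φ₂ ?_ y u v ?_ ?_
  · intro f hf
    have h1 : Polynomial.mapRingHom (FreeCommRing.lift a) f = 0 := by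
      apply hinj1
      rw [map_zero]
      exact hf
    have h2 : Polynomial.mapRingHom (FreeCommRing.lift b) f = 0 := by
      ext i
      rw [Polynomial.coe_mapRingHom, Polynomial.coeff_map, Polynomial.coeff_zero]
      apply hb
      have h3 := congrArg (fun q => Polynomial.coeff q i) h1
      simp only [Polynomial.coe_mapRingHom, Polynomial.coeff_map, Polynomial.coeff_zero] at h3
      exact h3
    show algebraMap F₂[X] (RatFunc F₂) (Polynomial.mapRingHom _ f) = 0
    rw [h2, map_zero]
  · intro j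
    rw [hu, hv]
    have hd : algebraMap F₁[X] (RatFunc F₁) (y j).denom ≠ 0 :=
      RatFunc.algebraMap_ne_zero (y j).denom_ne_zero
    rw [← eq_div_iff hd, RatFunc.num_div_denom]
  · intro j h0
    have h1 : Polynomial.mapRingHom (FreeCommRing.lift b) (v j) = 0 := by
      apply hinj2
      rw [map_zero]
      exact h0
    have h2 := congrArg (fun q => Polynomial.coeff q (y j).denom.natDegree) h1
    simp only [v, map_sum, Polynomial.coe_mapRingHom, Polynomial.map_monomial,
      Polynomial.finsetSum_coeff, Polynomial.coeff_monomial, Polynomial.coeff_zero] at h2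
    rw [Finset.sum_eq_single (⟨(y j).denom.natDegree, (hN j).2⟩ : Fin N)] at h2
    · simp at h2
    · intro i _ hi
      rw [if_neg]
      intro h3
      exact hi (Fin.ext h3)
    · intro h3
      exact absurd (Finset.mem_univ _) h3

end Pool.Agent.H.MP_397872_lc
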