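import Mathlib
import Pool.Agent.H.MP_397872_lc.Spec
import Pool.Agent.H.MP_397872_lc.SOS

namespace Pool.Agent.H.MP_397872_lc

open Polynomial

open scoped IntermediateField.algebraAdjoinAdjoin in
/-- Structure of finitely generated fields of characteristic zero. -/
theorem fg_structure (K : Type) [Field K] [Algebra ℚ K] [Algebra.EssFiniteType ℚ K] :
    ∃ (s : Set K) (_ : Finite s), AlgebraicIndependent ℚ ((↑) : s → K) ∧
      ∃ α : K, IsIntegral (Algebra.adjoin ℚ s) α ∧
        ∀ a : K, ∃ (d : Algebra.adjoin ℚ s) (G : (Algebra.adjoin ℚ s)[X]), d ≠ 0 ∧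
          a * (d : K) = aeval α G := by
  obtain ⟨t, ht, hsep⟩ := exists_isTranscendenceBasis_and_isSeparable_of_perfectField ℚ K
  refine ⟨(t : Set K), inferInstance, ht.1, ?_⟩
  let R := Algebra.adjoin ℚ (t : Set K)
  let E := IntermediateField.adjoin ℚ (t : Set K)
  have hess : Algebra.EssFiniteType E K := Algebra.EssFiniteType.of_comp ℚ E K
  have halg : Algebra.IsAlgebraic E K := inferInstance
  have hfin : FiniteDimensional E K := Algebra.finite_of_essFiniteType_of_isAlgebraic
  obtain ⟨α₀, hα₀⟩ := Field.exists_primitive_element E K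
  have halg0 : IsAlgebraic R α₀ := by
    rw [IsFractionRing.isAlgebraic_iff R E K]
    exact Algebra.IsAlgebraic.isAlgebraic α₀
  obtain ⟨d₀, hd₀, hint⟩ := halg0.exists_integral_multiple
  refine ⟨d₀ • α₀, hint, fun a => ?_⟩
  have htop : IntermediateField.adjoin E {d₀ • α₀} = ⊤ := by
    rw [eq_top_iff, ← hα₀, IntermediateField.adjoin_simple_le_iff]
    have h1 : α₀ = (algebraMap R E d₀)⁻¹ • (d₀ • α₀) := by
      rw [Algebra.smul_def, Algebra.smul_def d₀, map_inv₀, ← mul_assoc,
        ← IsScalarTower.algebraMap_apply R E K, inv_mul_cancel₀, one_mul]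
      rw [Ne, FaithfulSMul.algebraMap_eq_zero_iff]
      exact hd₀
    have h2 := (IntermediateField.adjoin E {d₀ • α₀}).smul_mem
      (IntermediateField.mem_adjoin_simple_self E (d₀ • α₀)) (x := (algebraMap R E d₀)⁻¹)
    rwa [← h1] at h2
  have htop' : Algebra.adjoin E {d₀ • α₀} = ⊤ := by
    rwa [IntermediateField.adjoin_simple_eq_top_iff_of_isAlgebraic
      (Algebra.IsAlgebraic.isAlgebraic (R := E) (d₀ • α₀))] at htop
  have ha : a ∈ Algebra.adjoin E {d₀ • α₀} := by rw [htop']; trivial
  rw [Algebra.adjoin_singleton_eq_range_aeval] at ha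
  obtain ⟨G₀, hG₀⟩ := ha
  obtain ⟨b, hbm, hb⟩ := IsLocalization.integerNormalization_spec (nonZeroDivisors R) G₀
  refine ⟨b, IsLocalization.integerNormalization (nonZeroDivisors R) G₀,
    nonZeroDivisors.ne_zero hbm, ?_⟩
  have h2 : aeval (d₀ • α₀) (IsLocalization.integerNormalization (nonZeroDivisors R) G₀) =
      aeval (d₀ • α₀) ((IsLocalization.integerNormalization (nonZeroDivisors R) G₀).map
        (algebraMap R E)) := by
    rw [aeval_map_algebraMap]
  have hG₀' : aeval (d₀ • α₀) G₀ = a := hG₀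
  have h3 : (b • G₀ : E[X]) = (algebraMap R E b) • G₀ := by
    rw [algebraMap_smul]
  rw [h2, hb, h3, map_smul, hG₀', Algebra.smul_def, ← IsScalarTower.algebraMap_apply R E K,
    mul_comm]
  rfl

end Pool.Agent.H.MP_397872_lc
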