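import Mathlib
import Pool.Agent.H.MP_397872_lc.AL

namespace Pool.Agent.H.MP_397872_lc

open Polynomial

/-- Near a simple real root a polynomial changes sign. -/
theorem sign_change {P : ℝ[X]} {a : ℝ} (h0 : P.eval a = 0) (h1 : (derivative P).eval a ≠ 0) :
    ∃ u v : ℝ, P.eval u * P.eval v < 0 := by
  obtain ⟨h, rfl⟩ : (X - C a) ∣ P := dvd_iff_isRoot.2 h0
  have h2 : h.eval a ≠ 0 := by
    simpa [derivative_mul] using h1
  have h3 : ∀ᶠ u in nhds a, 0 < h.eval u * h.eval a := by
    have hc : Continuous fun u => h.eval u * h.eval a := by fun_prop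
    have : 0 < h.eval a * h.eval a := mul_self_pos.2 h2
    exact hc.continuousAt.eventually (lt_mem_nhds this)
  rw [Metric.eventually_nhds_iff] at h3
  obtain ⟨δ, hδ, h4⟩ := h3
  refine ⟨a - δ / 2, a + δ / 2, ?_⟩
  have h5 := h4 (y := a - δ / 2) (by rw [Real.dist_eq]; simp [abs_of_pos (half_pos hδ)]; linarith)
  have h6 := h4 (y := a + δ / 2) (by rw [Real.dist_eq]; simp [abs_of_pos (half_pos hδ)]; linarith)
  have h7 : 0 < h.eval (a - δ / 2) * h.eval (a + δ / 2) := by
    have h8 := mul_pos h5 h6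
    have h9 : 0 < h.eval a * h.eval a := mul_self_pos.2 h2
    have h10 : (h.eval (a - δ / 2) * h.eval (a + δ / 2)) * (h.eval a * h.eval a) =
      h.eval (a - δ / 2) * h.eval a * (h.eval (a + δ / 2) * h.eval a) := by ring
    rw [← h10] at h8
    exact (mul_pos_iff_of_pos_right h9).1 h8
  simp only [eval_mul, eval_sub, eval_X, eval_C]
  have : (a - δ / 2 - a) * h.eval (a - δ / 2) * ((a + δ / 2 - a) * h.eval (a + δ / 2)) =
    - ((δ / 2) ^ 2 * (h.eval (a - δ / 2) * h.eval (a + δ / 2))) := by ring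
  rw [this]
  have : 0 < (δ / 2) ^ 2 * (h.eval (a - δ / 2) * h.eval (a + δ / 2)) := by positivity
  linarith

theorem exists_equiv {K : Type} [Field K] [Algebra ℚ K] {s : Set K}
    (hind : AlgebraicIndependent ℚ ((↑) : s → K)) :
    ∃ e : Algebra.adjoin ℚ s ≃ₐ[ℚ] MvPolynomial s ℚ,
      ∀ r, MvPolynomial.aeval ((↑) : s → K) (e r) = (r : K) := by
  have hs : Algebra.adjoin ℚ (Set.range ((↑) : s → K)) = Algebra.adjoin ℚ s := by
    rw [Subtype.range_coe]
  have key : ∀ S : Subalgebra ℚ K, Algebra.adjoin ℚ (Set.range ((↑) : s → K)) = S →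
      ∃ e : S ≃ₐ[ℚ] MvPolynomial s ℚ, ∀ r, MvPolynomial.aeval ((↑) : s → K) (e r) = (r : K) := by
    rintro S rfl
    refine ⟨hind.aevalEquiv.symm, fun r => ?_⟩
    have h1 := hind.algebraMap_aevalEquiv (hind.aevalEquiv.symm r)
    rw [AlgEquiv.apply_symm_apply] at h1
    exact h1.symm
  exact key _ hs

/-- Every finite tuple of a finitely generated real field specializes to real algebraic
numbers. -/
theorem spec_aux (K : Type) [Field K] [Algebra ℚ K] [Algebra.EssFiniteType ℚ K] (ι : K →+* ℝ)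
    (κ : Type) [Finite κ] (y : κ → K) :
    ∃ z : κ → Ralg, ∀ p : FreeCommRing κ, FreeCommRing.lift y p = 0 →
      FreeCommRing.lift z p = 0 := by
  have := Fintype.ofFinite κ
  obtain ⟨s, hs, hind, α, hα, hfrac⟩ := fg_structure K
  have := Fintype.ofFinite s
  set R := Algebra.adjoin ℚ s with hR
  choose d G hd hG using fun j => hfrac (y j)
  -- `R` is a polynomial ring
  obtain ⟨e, he⟩ : ∃ e : R ≃ₐ[ℚ] MvPolynomial s ℚ,
      ∀ r, MvPolynomial.aeval ((↑) : s → K) (e r) = (r : K) := exists_equiv hind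
  have hufd : UniqueFactorizationMonoid R :=
    e.symm.toMulEquiv.uniqueFactorizationMonoid inferInstance
  have hic : IsIntegrallyClosed R := inferInstance
  set g := minpoly R α with hg
  have hgm : g.Monic := minpoly.monic hα
  -- evaluation at real points
  let θ : (s → ℝ) → R →+* ℝ := fun q =>
    ((MvPolynomial.aeval q : MvPolynomial s ℚ →ₐ[ℚ] ℝ) : MvPolynomial s ℚ →+* ℝ).comp
      (e : R →+* MvPolynomial s ℚ)
  have hθcont : ∀ r : R, Continuous fun q => θ q r := by
    intro r
    have h1 : (fun q => θ q r) = fun q => MvPolynomial.eval q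
        (MvPolynomial.map (algebraMap ℚ ℝ) (e r)) := by
      funext q
      rw [MvPolynomial.eval_map]
      rfl
    rw [h1]
    exact MvPolynomial.continuous_eval _
  let x : s → ℝ := fun i => ι i
  have hθx : ∀ r : R, θ x r = ι (r : K) := by
    intro r
    rw [← he r]
    show MvPolynomial.aeval x (e r) = _
    have h1 := MvPolynomial.comp_aeval_apply (f := ((↑) : s → K)) (ι.toRatAlgHom) (e r)
    exact h1.symm
  have hθx' : θ x = ι.comp (algebraMap R K) := RingHom.ext hθx
  -- the real polynomial at `x` has the simple root `ι α`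
  have hroot : (g.map (θ x)).eval (ι α) = 0 := by
    rw [eval_map, hθx', ← hom_eval₂]
    have h1 : eval₂ (algebraMap R K) α g = 0 := minpoly.aeval R α
    rw [h1, map_zero]
  have hder : aeval α (derivative g) ≠ 0 := by
    intro h0
    have h1 : g ∣ derivative g := minpoly.isIntegrallyClosed_dvd hα h0
    have h2 : derivative g ≠ 0 := by
      intro h3
      have h5 : 0 < g.natDegree := minpoly.natDegree_pos hα
      have h6 := congrArg (fun p => coeff p (g.natDegree - 1)) h3
      simp only [coeff_derivative, coeff_zero] at h6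
      have h7 : g.natDegree - 1 + 1 = g.natDegree := by omega
      rw [h7, hgm.coeff_natDegree, one_mul] at h6
      have : CharZero R := algebraRat.charZero R
      exact Nat.cast_add_one_ne_zero _ h6
    have h3 := degree_le_of_dvd h1 h2
    have h4 := degree_derivative_lt hgm.ne_zero
    exact absurd h3 (not_le.2 h4)
  have hsimple : (derivative (g.map (θ x))).eval (ι α) ≠ 0 := by
    rw [derivative_map, eval_map, hθx', ← hom_eval₂]
    intro h0
    exact hder ((map_eq_zero ι).1 h0)
  obtain ⟨u, v, huv⟩ := sign_change hroot hsimple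
  have hcontEval : ∀ a : ℝ, Continuous fun q => (g.map (θ q)).eval a := by
    intro a
    have h1 : (fun q => (g.map (θ q)).eval a) =
        fun q => ∑ i ∈ Finset.range (g.natDegree + 1), θ q (g.coeff i) * a ^ i := by
      funext q
      rw [eval_map, eval₂_eq_sum_range]
    rw [h1]
    exact continuous_finsetSum _ fun i _ => (hθcont _).mul continuous_const
  let U : Set (s → ℝ) := {q | (g.map (θ q)).eval u * (g.map (θ q)).eval v < 0} ∩
    ⋂ j, {q | θ q (d j) ≠ 0}
  have hU : IsOpen U := by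
    refine (isOpen_lt ((hcontEval u).mul (hcontEval v)) continuous_const).inter ?_
    exact isOpen_iInter_of_finite fun j => isOpen_ne_fun (hθcont _) continuous_const
  have hxU : x ∈ U := by
    refine ⟨huv, Set.mem_iInter.2 fun j => ?_⟩
    show θ x (d j) ≠ 0
    rw [hθx]
    intro h0
    exact hd j (Subtype.ext ((map_eq_zero ι).1 h0))
  obtain ⟨q, hq⟩ := (DenseRange.piMap (fun _ : s => Rat.denseRange_cast (𝕜 := ℝ))).exists_mem_open
    hU ⟨x, hxU⟩
  obtain ⟨hq1, hq2⟩ := hq
  rw [Set.mem_iInter] at hq2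
  set q' : s → ℝ := Pi.map (fun _ => ((↑) : ℚ → ℝ)) q with hq'
  let θQ : R →+* ℚ := ((MvPolynomial.aeval q : MvPolynomial s ℚ →ₐ[ℚ] ℚ) :
    MvPolynomial s ℚ →+* ℚ).comp (e : R →+* MvPolynomial s ℚ)
  have hθq : θ q' = (algebraMap ℚ ℝ).comp θQ := by
    apply RingHom.ext
    intro r
    show MvPolynomial.aeval q' (e r) = algebraMap ℚ ℝ (MvPolynomial.aeval q (e r))
    have h1 := MvPolynomial.comp_aeval_apply (f := q) (Algebra.ofId ℚ ℝ) (e r)
    exact h1.symm
  -- a real root at the rational point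
  obtain ⟨β, hβ⟩ : ∃ β : ℝ, (g.map (θ q')).eval β = 0 := by
    have hc : Continuous fun b => (g.map (θ q')).eval b := (g.map (θ q')).continuous
    have hr : (0:ℝ) ∈ Set.range fun b => (g.map (θ q')).eval b := by
      have hq1' : (g.map (θ q')).eval u * (g.map (θ q')).eval v < 0 := hq1
      rcases mul_neg_iff.1 hq1' with ⟨h1, h2⟩ | ⟨h1, h2⟩
      · exact mem_range_of_exists_le_of_exists_ge hc ⟨v, h2.le⟩ ⟨u, h1.le⟩
      · exact mem_range_of_exists_le_of_exists_ge hc ⟨u, h1.le⟩ ⟨v, h2.le⟩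
    obtain ⟨β, hβ⟩ := hr
    exact ⟨β, hβ⟩
  have hβ2 : aeval β (g.map θQ) = 0 := by
    rw [hθq, ← Polynomial.map_map, eval_map_algebraMap] at hβ
    exact hβ
  have hβmem : β ∈ Ralg := by
    rw [mem_Ralg]
    exact ⟨g.map θQ, (hgm.map θQ).ne_zero, hβ2⟩
  let b : Ralg := ⟨β, hβmem⟩
  let Ψ : R[X] →+* Ralg := eval₂RingHom ((algebraMap ℚ Ralg).comp θQ) b
  have hΨg : Ψ g = 0 := by
    have hinj : Function.Injective (algebraMap Ralg ℝ) := (algebraMap Ralg ℝ).injective
    apply hinj
    rw [map_zero]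
    show algebraMap Ralg ℝ (eval₂ ((algebraMap ℚ Ralg).comp θQ) b g) = 0
    rw [hom_eval₂]
    have h1 : (algebraMap Ralg ℝ).comp ((algebraMap ℚ Ralg).comp θQ) = (algebraMap ℚ ℝ).comp θQ := by
      rw [← RingHom.comp_assoc]
      congr 1
    have h2 : algebraMap Ralg ℝ b = β := rfl
    rw [h1, h2]
    rw [aeval_def, eval₂_map] at hβ2
    exact hβ2
  refine spec_general ((aeval (R := R) α : R[X] →ₐ[R] K) : R[X] →+* K) Ψ ?_ y G
    (fun j => C (d j)) ?_ ?_
  · intro f hf
    have h1 : g ∣ f := minpoly.isIntegrallyClosed_dvd hα hf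
    obtain ⟨f', rfl⟩ := h1
    rw [map_mul, hΨg, zero_mul]
  · intro j
    show y j * aeval α (C (d j)) = aeval α (G j)
    rw [← hG j, aeval_C]
    rfl
  · intro j
    show eval₂ ((algebraMap ℚ Ralg).comp θQ) b (C (d j)) ≠ 0
    rw [eval₂_C]
    show algebraMap ℚ Ralg (θQ (d j)) ≠ 0
    intro h0
    apply hq2 j
    have h1 : θQ (d j) = 0 := (map_eq_zero _).1 h0
    rw [hθq]
    show algebraMap ℚ ℝ (θQ (d j)) = 0
    rw [h1, map_zero]

/-- Every finite tuple of reals specializes to real algebraic numbers. -/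
theorem spec_real : Spec ℝ Ralg := by
  intro κ _ y
  let K := IntermediateField.adjoin ℚ (Set.range y)
  have hyK : ∀ j, y j ∈ K := fun j => IntermediateField.subset_adjoin _ _ ⟨j, rfl⟩
  have hess := (IntermediateField.essFiniteType_iff (K := K)).2
    (IntermediateField.fg_adjoin_of_finite (Set.finite_range y))
  obtain ⟨z, hz⟩ := @spec_aux K _ (IntermediateField.algebra' K) hess (algebraMap K ℝ) κ _
    (fun j => ⟨y j, hyK j⟩)
  refine ⟨z, fun p hp => hz p ?_⟩
  apply (algebraMap K ℝ).injective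
  rw [map_lift, map_zero, ← hp]
  rfl

end Pool.Agent.H.MP_397872_lc
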