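import Mathlib

open Polynomial

namespace Pool.Agent.H.MP_397872_lc

variable {K : Type} [Field K]

/-- `x` is regular at `0` with value `a`. -/
def HasVal (x : RatFunc K) (a : K) : Prop :=
  ∃ p q : K[X], q.eval 0 ≠ 0 ∧ x * algebraMap K[X] (RatFunc K) q = algebraMap K[X] (RatFunc K) p ∧
    p.eval 0 = a * q.eval 0

theorem HasVal.unique {x : RatFunc K} {a b : K} (h1 : HasVal x a) (h2 : HasVal x b) : a = b := by
  obtain ⟨p, q, hq, e, ha⟩ := h1
  obtain ⟨p', q', hq', e', hb⟩ := h2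
  have h : algebraMap K[X] (RatFunc K) (p * q') = algebraMap K[X] (RatFunc K) (p' * q) := by
    rw [map_mul, map_mul, ← e, ← e']
    ring
  have h := RatFunc.algebraMap_injective K h
  have h := congrArg (eval 0) h
  rw [eval_mul, eval_mul, ha, hb] at h
  have : (a - b) * (q.eval 0 * q'.eval 0) = 0 := by linear_combination h
  rcases mul_eq_zero.1 this with h1 | h1
  · exact sub_eq_zero.1 h1
  · exact absurd h1 (mul_ne_zero hq hq')

theorem hasVal_C (a : K) : HasVal (RatFunc.C a) a :=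
  ⟨C a, 1, by simp, by simp, by simp⟩

theorem hasVal_X : HasVal (RatFunc.X : RatFunc K) 0 :=
  ⟨X, 1, by simp, by simp, by simp⟩

theorem HasVal.add {x y : RatFunc K} {a b : K} (h1 : HasVal x a) (h2 : HasVal y b) :
    HasVal (x + y) (a + b) := by
  obtain ⟨p, q, hq, e, ha⟩ := h1
  obtain ⟨p', q', hq', e', hb⟩ := h2
  refine ⟨p * q' + p' * q, q * q', ?_, ?_, ?_⟩
  · rw [eval_mul]; exact mul_ne_zero hq hq'
  · simp only [map_mul, map_add, ← e, ← e']; ring
  · simp only [eval_mul, eval_add, ha, hb]; ring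

theorem HasVal.mul {x y : RatFunc K} {a b : K} (h1 : HasVal x a) (h2 : HasVal y b) :
    HasVal (x * y) (a * b) := by
  obtain ⟨p, q, hq, e, ha⟩ := h1
  obtain ⟨p', q', hq', e', hb⟩ := h2
  refine ⟨p * p', q * q', ?_, ?_, ?_⟩
  · rw [eval_mul]; exact mul_ne_zero hq hq'
  · simp only [map_mul, ← e, ← e']; ring
  · simp only [eval_mul, ha, hb]; ring

theorem HasVal.neg {x : RatFunc K} {a : K} (h1 : HasVal x a) : HasVal (-x) (-a) := by
  obtain ⟨p, q, hq, e, ha⟩ := h1
  refine ⟨-p, q, hq, ?_, ?_⟩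
  · simp only [map_neg, ← e]; ring
  · simp only [eval_neg, ha]; ring

theorem HasVal.sub {x y : RatFunc K} {a b : K} (h1 : HasVal x a) (h2 : HasVal y b) :
    HasVal (x - y) (a - b) := by
  rw [sub_eq_add_neg, sub_eq_add_neg]
  exact h1.add h2.neg

theorem HasVal.pow {x : RatFunc K} {a : K} (h1 : HasVal x a) (n : ℕ) : HasVal (x ^ n) (a ^ n) := by
  induction n with
  | zero => simpa using hasVal_C (1 : K)
  | succ n ih => rw [pow_succ, pow_succ]; exact ih.mul h1

theorem HasVal.inv {x : RatFunc K} {a : K} (h1 : HasVal x a) (h0 : a ≠ 0) : HasVal x⁻¹ a⁻¹ := by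
  obtain ⟨p, q, hq, e, ha⟩ := h1
  have hp : p.eval 0 ≠ 0 := by rw [ha]; exact mul_ne_zero h0 hq
  have hx : x ≠ 0 := by
    rintro rfl
    rw [zero_mul] at e
    have : p = 0 := RatFunc.algebraMap_injective K (by rw [← e, map_zero])
    rw [this] at hp
    exact hp eval_zero
  refine ⟨q, p, hp, ?_, ?_⟩
  · rw [← e]; field_simp
  · rw [ha]; field_simp

theorem HasVal.div {x y : RatFunc K} {a b : K} (h1 : HasVal x a) (h2 : HasVal y b) (h0 : b ≠ 0) :
    HasVal (x / y) (a / b) := by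
  rw [div_eq_mul_inv, div_eq_mul_inv]
  exact h1.mul (h2.inv h0)

theorem HasVal.ne_zero {x : RatFunc K} {a : K} (h1 : HasVal x a) (h0 : a ≠ 0) : x ≠ 0 := by
  rintro rfl
  have h2 : HasVal (0 : RatFunc K) 0 := by simpa using hasVal_C (0 : K)
  exact h0 (h1.unique h2)

theorem hasVal_one : HasVal (1 : RatFunc K) 1 := by simpa using hasVal_C (1 : K)

/-- The only points of the Fermat cubic over `K(t)` are constant. -/
theorem fermat_const [CharZero K] {x y : RatFunc K} (h : x ^ 3 + y ^ 3 = 1) :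
    ∃ a : K, x = RatFunc.C a := by
  by_cases hx : x = 0
  · exact ⟨0, by rw [hx, map_zero]⟩
  by_cases hy : y = 0
  · -- x ^ 3 = 1
    subst hy
    have h1 : x ^ 3 = 1 := by simpa using h
    set p := x.num
    set q := x.denom
    have hpq : x = algebraMap K[X] (RatFunc K) p / algebraMap K[X] (RatFunc K) q :=
      (RatFunc.num_div_denom x).symm
    have hq : algebraMap K[X] (RatFunc K) q ≠ 0 := RatFunc.algebraMap_ne_zero x.denom_ne_zero
    have h2 : algebraMap K[X] (RatFunc K) (p ^ 3) = algebraMap K[X] (RatFunc K) (q ^ 3) := by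
      rw [map_pow, map_pow]
      rw [hpq] at h1
      field_simp at h1
      exact h1
    have h3 := RatFunc.algebraMap_injective K h2
    have hc : IsCoprime p q := RatFunc.isCoprime_num_denom x
    have hu : IsUnit q := by
      have : q ∣ p ^ 3 := by rw [h3]; exact dvd_pow_self q (by norm_num)
      exact (hc.symm.pow_right (n := 3)).isUnit_of_dvd' dvd_rfl this
    have hu' : IsUnit p := by
      have : p ∣ q ^ 3 := by rw [← h3]; exact dvd_pow_self p (by norm_num)
      exact (hc.pow_right (n := 3)).isUnit_of_dvd' dvd_rfl this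
    rw [Polynomial.isUnit_iff] at hu hu'
    obtain ⟨a, ha, hqa⟩ := hu
    obtain ⟨b, hb, hpb⟩ := hu'
    refine ⟨b / a, ?_⟩
    rw [hpq, ← hqa, ← hpb, RatFunc.algebraMap_C, RatFunc.algebraMap_C, map_div₀]
  -- general case
  set D := x.denom * y.denom with hD
  set A := x.num * y.denom with hA
  set B := y.num * x.denom with hB
  have hxd : algebraMap K[X] (RatFunc K) x.denom ≠ 0 := RatFunc.algebraMap_ne_zero x.denom_ne_zero
  have hyd : algebraMap K[X] (RatFunc K) y.denom ≠ 0 := RatFunc.algebraMap_ne_zero y.denom_ne_zero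
  have e1 : algebraMap K[X] (RatFunc K) x.num = x * algebraMap K[X] (RatFunc K) x.denom := by
    rw [← div_eq_iff hxd, RatFunc.num_div_denom]
  have e2 : algebraMap K[X] (RatFunc K) y.num = y * algebraMap K[X] (RatFunc K) y.denom := by
    rw [← div_eq_iff hyd, RatFunc.num_div_denom]
  have heq : A ^ 3 + B ^ 3 = D ^ 3 := by
    apply RatFunc.algebraMap_injective K
    simp only [hA, hB, hD, map_add, map_mul, map_pow, e1, e2]
    linear_combination (algebraMap K[X] (RatFunc K) x.denom * algebraMap K[X] (RatFunc K) y.denom) ^ 3 * h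
  have hA0 : A ≠ 0 := mul_ne_zero (RatFunc.num_ne_zero hx) y.denom_ne_zero
  have hB0 : B ≠ 0 := mul_ne_zero (RatFunc.num_ne_zero hy) x.denom_ne_zero
  have hD0 : D ≠ 0 := mul_ne_zero x.denom_ne_zero y.denom_ne_zero
  obtain ⟨g, a', b', c', ⟨ha, hb, hc⟩, ua, ub, uc⟩ :=
    fermatLastTheoremWith'_polynomial (k := K) le_rfl (by norm_num) A B D hA0 hB0 hD0 heq
  rw [Polynomial.isUnit_iff] at ua uc
  obtain ⟨α, hα, rfl⟩ := ua
  obtain ⟨γ, hγ, rfl⟩ := uc
  have hγ' : γ ≠ 0 := hγ.ne_zero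
  refine ⟨α / γ, ?_⟩
  have hg : algebraMap K[X] (RatFunc K) g ≠ 0 := by
    apply RatFunc.algebraMap_ne_zero
    rintro rfl
    exact hA0 (by rw [ha, mul_zero])
  have h3 : x * algebraMap K[X] (RatFunc K) D = algebraMap K[X] (RatFunc K) A := by
    simp only [hA, hD, map_mul, e1]; ring
  rw [ha, hc] at h3
  simp only [map_mul, RatFunc.algebraMap_C] at h3
  have h4 : x * RatFunc.C γ = RatFunc.C α := mul_right_cancel₀ hg (by rw [← h3]; ring)
  have hγ2 : (RatFunc.C γ : RatFunc K) ≠ 0 := by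
    simpa using hγ'
  rw [map_div₀, eq_div_iff hγ2, h4]

end Pool.Agent.H.MP_397872_lc
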