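import Mathlib

open Polynomial

namespace Pool.Agent.H.MP_397872_lc

/-- The factor `Z` divides the Wronskian. -/
theorem dvd_wronskian {A B Z : ℝ[X]} (hAB : IsCoprime A B)
    (h : (X - X ^ 4) * Z ^ 2 = A * B ^ 3 - A ^ 4) : Z ∣ wronskian B A := by
  have hG : Z ∣ A * B ^ 3 - A ^ 4 := ⟨(X - X ^ 4) * Z, by rw [← h]; ring⟩
  have hG' : Z ∣ derivative (A * B ^ 3 - A ^ 4) := by
    rw [← h]
    simp only [derivative_mul, derivative_pow, derivative_sub, derivative_X]
    refine ⟨(1 - (4 : ℝ[X]) * X ^ 3 ) * Z + 2 * (X - X ^ 4) * derivative Z, ?_⟩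
    simp only [Nat.cast_ofNat, map_ofNat]
    ring
  have e1 : (B ^ 3 - 4 * A ^ 3) * wronskian B A =
      B * derivative (A * B ^ 3 - A ^ 4) - 4 * (A * B ^ 3 - A ^ 4) * derivative B := by
    simp only [derivative_mul, derivative_pow, derivative_sub, wronskian]
    simp only [Nat.cast_ofNat, map_ofNat]
    ring
  have e2 : (3 * A * B ^ 2) * wronskian B A =
      4 * (A * B ^ 3 - A ^ 4) * derivative A - A * derivative (A * B ^ 3 - A ^ 4) := by
    simp only [derivative_mul, derivative_pow, derivative_sub, wronskian]
    simp only [Nat.cast_ofNat, map_ofNat]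
    ring
  have d1 : Z ∣ (B ^ 3 - 4 * A ^ 3) * wronskian B A := by
    rw [e1]
    exact dvd_sub (hG'.mul_left _) ((hG.mul_left _).mul_right _)
  have d2 : Z ∣ (3 * A * B ^ 2) * wronskian B A := by
    rw [e2]
    exact dvd_sub ((hG.mul_left _).mul_right _) (hG'.mul_left _)
  have u3 : IsUnit (3 : ℝ[X]) := by
    rw [← map_ofNat (C : ℝ →+* ℝ[X]) 3, isUnit_C]
    norm_num
  have u4 : IsUnit (4 : ℝ[X]) := by
    rw [← map_ofNat (C : ℝ →+* ℝ[X]) 4, isUnit_C]
    norm_num
  have c1 : IsCoprime (B ^ 3 - 4 * A ^ 3) A := by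
    have : IsCoprime (B ^ 3) A := hAB.symm.pow_left
    have h2 := this.add_mul_left_left (-4 * A ^ 2)
    have e : B ^ 3 - 4 * A ^ 3 = B ^ 3 + A * (-4 * A ^ 2) := by ring
    rw [e]
    exact h2
  have c2 : IsCoprime (B ^ 3 - 4 * A ^ 3) B := by
    have : IsCoprime (4 * -(A ^ 3)) B := by
      rw [isCoprime_mul_unit_left_left u4]
      exact (hAB.pow_left).neg_left
    have h2 := this.add_mul_left_left (B ^ 2)
    have e : B ^ 3 - 4 * A ^ 3 = 4 * -(A ^ 3) + B * B ^ 2 := by ring
    rw [e]
    exact h2
  have c3 : IsCoprime (B ^ 3 - 4 * A ^ 3) (3 * (A * B ^ 2)) := by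
    rw [isCoprime_mul_unit_left_right u3]
    exact IsCoprime.mul_right c1 c2.pow_right
  obtain ⟨u, v, huv⟩ := c3
  have : wronskian B A = u * ((B ^ 3 - 4 * A ^ 3) * wronskian B A) +
      v * ((3 * A * B ^ 2) * wronskian B A) := by
    linear_combination (-wronskian B A) * huv
  rw [this]
  exact dvd_add (d1.mul_left _) (d2.mul_left _)

/-- The Wronskian of `A` and `B` is a constant multiple of `Z`. -/
theorem wronskian_eq {A B Z : ℝ[X]} (hAB : IsCoprime A B) (hZ : Z ≠ 0)
    (h : (X - X ^ 4) * Z ^ 2 = A * B ^ 3 - A ^ 4) : ∃ α : ℝ, wronskian B A = C α * Z := by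
  by_cases hW : wronskian B A = 0
  · exact ⟨0, by simp [hW]⟩
  have hA : A ≠ 0 := by
    rintro rfl
    exact hW (wronskian_zero_right _)
  have hB : B ≠ 0 := by
    rintro rfl
    exact hW (wronskian_zero_left _)
  have hAB' : B - A ≠ 0 := by
    intro h0
    have : B = A := sub_eq_zero.1 h0
    rw [this] at hW
    exact hW (wronskian_self_eq_zero _)
  -- degree of the left side
  have hX : (X - X ^ 4 : ℝ[X]) ≠ 0 := by
    intro h0
    have := congrArg (fun p => eval 2 p) h0
    simp at this
    norm_num at this
  have hXd : (X - X ^ 4 : ℝ[X]).natDegree = 4 := by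
    compute_degree!
  have hL : ((X - X ^ 4) * Z ^ 2 : ℝ[X]).natDegree = 4 + 2 * Z.natDegree := by
    rw [natDegree_mul hX (pow_ne_zero 2 hZ), natDegree_pow, hXd]
  have hE : A * B ^ 3 - A ^ 4 = A * ((B - A) * (B ^ 2 + A * B + A ^ 2)) := by ring
  have hWd : (wronskian B A).natDegree < B.natDegree + A.natDegree :=
    natDegree_wronskian_lt_add hW
  have key : (wronskian B A).natDegree ≤ Z.natDegree := by
    rcases lt_trichotomy A.natDegree B.natDegree with hlt | heq | hgt
    · -- deg A < deg B
      have h1 : (A * B ^ 3 - A ^ 4).natDegree = A.natDegree + 3 * B.natDegree := by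
        have e1 : (A * B ^ 3).natDegree = A.natDegree + 3 * B.natDegree := by
          rw [natDegree_mul hA (pow_ne_zero _ hB), natDegree_pow]
        have e2 : (A ^ 4).natDegree = 4 * A.natDegree := natDegree_pow _ _
        rw [natDegree_sub_eq_left_of_natDegree_lt, e1]
        rw [e1, e2]
        omega
      rw [← h, hL] at h1
      omega
    · -- equal degrees
      have hc : (B * B + A * B + A * A).coeff (A.natDegree + A.natDegree) ≠ 0 := by
        rw [coeff_add, coeff_add, coeff_mul_add_eq_of_natDegree_le heq.ge heq.ge,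
          coeff_mul_add_eq_of_natDegree_le le_rfl heq.ge, coeff_mul_add_eq_of_natDegree_le le_rfl le_rfl]
        have ha : A.coeff A.natDegree ≠ 0 := by
          rwa [coeff_natDegree, leadingCoeff_ne_zero]
        have hpos := sq_pos_of_ne_zero ha
        nlinarith [sq_nonneg (B.coeff A.natDegree + A.coeff A.natDegree / 2)]
      have h20 : B ^ 2 + A * B + A ^ 2 = B * B + A * B + A * A := by ring
      have h2' : B ^ 2 + A * B + A ^ 2 ≠ 0 := by
        intro h0
        rw [← h20, h0] at hc
        exact hc (coeff_zero _)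
      have h2 : (B ^ 2 + A * B + A ^ 2).natDegree = 2 * A.natDegree := by
        rw [two_mul, h20]
        refine natDegree_eq_of_le_of_coeff_ne_zero ?_ hc
        refine natDegree_add_le_of_degree_le (natDegree_add_le_of_degree_le ?_ ?_) ?_
        · refine natDegree_mul_le.trans ?_
          omega
        · refine natDegree_mul_le.trans ?_
          omega
        · exact natDegree_mul_le
      have h1 : (A * B ^ 3 - A ^ 4).natDegree =
          A.natDegree + ((B - A).natDegree + 2 * A.natDegree) := by
        rw [hE, natDegree_mul hA (mul_ne_zero hAB' h2'), natDegree_mul hAB' h2', h2]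
      rw [← h, hL] at h1
      have hs : (B - A).natDegree ≤ A.natDegree := by
        refine (natDegree_sub_le _ _).trans ?_
        rw [heq]
        simp
      have hWE : wronskian B A = wronskian (B - A) A := by
        simp only [wronskian, derivative_sub]
        ring
      rcases hs.lt_or_eq with hs | hs
      · have := natDegree_wronskian_lt_add (a := B - A) (b := A) (hWE ▸ hW)
        rw [← hWE] at this
        omega
      · -- use `B - c A` of smaller degree
        obtain ⟨c, hc⟩ : ∃ c : ℝ, (B - C c * A).natDegree < A.natDegree ∨ B - C c * A = 0 := by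
          have hc0 : B.leadingCoeff / A.leadingCoeff ≠ 0 :=
            div_ne_zero (leadingCoeff_ne_zero.2 hB) (leadingCoeff_ne_zero.2 hA)
          refine ⟨B.leadingCoeff / A.leadingCoeff, ?_⟩
          by_cases h0 : B - C (B.leadingCoeff / A.leadingCoeff) * A = 0
          · exact Or.inr h0
          · left
            rw [heq]
            refine natDegree_lt_natDegree h0 (degree_sub_lt_left ?_ hB ?_)
            · rw [degree_C_mul hc0, degree_eq_natDegree hA, degree_eq_natDegree hB, heq]
            · rw [leadingCoeff_C_mul_of_isUnit (isUnit_iff_ne_zero.2 hc0)]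
              field_simp [leadingCoeff_ne_zero.2 hA]
        have hWc : wronskian B A = wronskian (B - C c * A) A := by
          simp only [wronskian, derivative_sub, derivative_mul, derivative_C]
          ring
        rcases hc with hc | hc
        · have := natDegree_wronskian_lt_add (a := B - C c * A) (b := A) (hWc ▸ hW)
          rw [← hWc] at this
          omega
        · exfalso
          rw [hc] at hWc
          exact hW (hWc.trans (wronskian_zero_left _))
    · -- deg A > deg B
      have h1 : (A * B ^ 3 - A ^ 4).natDegree = 4 * A.natDegree := by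
        have e1 : (A * B ^ 3).natDegree = A.natDegree + 3 * B.natDegree := by
          rw [natDegree_mul hA (pow_ne_zero _ hB), natDegree_pow]
        have e2 : (A ^ 4).natDegree = 4 * A.natDegree := natDegree_pow _ _
        rw [natDegree_sub_eq_right_of_natDegree_lt, e2]
        rw [e1, e2]
        omega
      rw [← h, hL] at h1
      omega
  obtain ⟨Q, hQ⟩ := dvd_wronskian hAB h
  have hQ0 : Q ≠ 0 := by
    rintro rfl
    exact hW (by rw [hQ, mul_zero])
  have hQd : Q.natDegree = 0 := by
    rw [hQ, natDegree_mul hZ hQ0] at key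
    omega
  rw [natDegree_eq_zero] at hQd
  obtain ⟨α, rfl⟩ := hQd
  exact ⟨α, by rw [hQ, mul_comm]⟩

end Pool.Agent.H.MP_397872_lc
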