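import Mathlib
import Pool.Agent.H.MP_397872_lc.Ell

open Polynomial MeasureTheory Set

namespace Pool.Agent.H.MP_397872_lc

/-- The integrand `1/√(s - s⁴)`. -/
noncomputable def gI (s : ℝ) : ℝ := (√(s - s ^ 4))⁻¹

/-- The elliptic integral from `0`. -/
noncomputable def PhiI (x : ℝ) : ℝ := ∫ s in (0:ℝ)..x, gI s

theorem q_pos {s : ℝ} (h0 : 0 < s) (h1 : s < 1) : 0 < s - s ^ 4 := by
  have h2 : s ^ 3 < 1 := pow_lt_one₀ h0.le h1 (by norm_num)
  have : s - s ^ 4 = s * (1 - s ^ 3) := by ring
  rw [this]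
  exact mul_pos h0 (by linarith)

theorem gI_nonneg (s : ℝ) : 0 ≤ gI s := by unfold gI; positivity

theorem measurable_gI : Measurable gI := by
  unfold gI
  fun_prop

theorem integrableOn_gI : IntegrableOn gI (Ioc 0 1) := by
  -- comparison with the derivative of `arcsin (2 s - 1)`
  have hc : IntegrableOn (fun s : ℝ => (√(s - s ^ 2))⁻¹) (Ioc 0 1) := by
    refine intervalIntegral.integrableOn_deriv_of_nonneg
      (g := fun s => Real.arcsin (2 * s - 1)) (by fun_prop) ?_ ?_
    · intro s hs
      have h1 : (2 * s - 1) ≠ -1 := by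
        have := hs.1
        intro h; linarith
      have h2 : (2 * s - 1) ≠ 1 := by
        have := hs.2
        intro h; linarith
      have h3 := (Real.hasDerivAt_arcsin h1 h2).comp s
        (((hasDerivAt_id s).const_mul 2).sub_const 1)
      refine h3.congr_deriv ?_
      have h4 : (1 - (2 * s - 1) ^ 2 : ℝ) = (s - s ^ 2) * 2 ^ 2 := by ring
      rw [h4, Real.sqrt_mul' _ (by norm_num), Real.sqrt_sq (by norm_num)]
      have h5 : √(s - s ^ 2) ≠ 0 := by
        apply (Real.sqrt_pos.2 _).ne'
        nlinarith [hs.1, hs.2]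
      field_simp
    · intro s _
      positivity
  refine Integrable.mono' hc measurable_gI.aestronglyMeasurable ?_
  rw [ae_restrict_iff' measurableSet_Ioc]
  refine Filter.Eventually.of_forall fun s hs => ?_
  rw [Real.norm_of_nonneg (gI_nonneg s)]
  unfold gI
  rcases hs.2.lt_or_eq with h1 | h1
  · apply inv_anti₀
    · apply Real.sqrt_pos.2
      nlinarith [hs.1]
    · apply Real.sqrt_le_sqrt
      have h0 := hs.1
      have : s ^ 4 ≤ s ^ 2 := by
        have h2 : s ^ 2 ≤ 1 := pow_le_one₀ h0.le hs.2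
        nlinarith [sq_nonneg s]
      linarith
  · subst h1
    simp

theorem intervalIntegrable_gI {a b : ℝ} (ha : a ∈ Icc (0:ℝ) 1) (hb : b ∈ Icc (0:ℝ) 1) :
    IntervalIntegrable gI volume a b := by
  have h : IntervalIntegrable gI volume 0 1 := by
    rw [intervalIntegrable_iff_integrableOn_Ioc_of_le zero_le_one]
    exact integrableOn_gI
  refine h.mono_set ?_
  rw [uIcc_of_le (zero_le_one' ℝ)]
  exact uIcc_subset_Icc ha hb

theorem continuousOn_PhiI : ContinuousOn PhiI (Icc 0 1) := by
  have h : IntegrableOn gI (uIcc (0:ℝ) 1) := by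
    rw [uIcc_of_le (zero_le_one' ℝ), integrableOn_Icc_iff_integrableOn_Ioc]
    exact integrableOn_gI
  have := intervalIntegral.continuousOn_primitive_interval h
  rw [uIcc_of_le (zero_le_one' ℝ)] at this
  exact this

theorem hasDerivAt_PhiI {x : ℝ} (hx : x ∈ Ioo (0:ℝ) 1) : HasDerivAt PhiI (gI x) x := by
  refine intervalIntegral.integral_hasDerivAt_right
    (intervalIntegrable_gI ⟨le_rfl, zero_le_one⟩ (Ioo_subset_Icc_self hx))
    measurable_gI.stronglyMeasurable.stronglyMeasurableAtFilter ?_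
  unfold gI
  have h1 : √(x - x ^ 4) ≠ 0 := (Real.sqrt_pos.2 (q_pos hx.1 hx.2)).ne'
  exact ContinuousAt.inv₀ (by fun_prop) h1

theorem PhiI_zero : PhiI 0 = 0 := by simp [PhiI]

theorem PhiI_one_pos : 0 < PhiI 1 := by
  unfold PhiI
  refine intervalIntegral.intervalIntegral_pos_of_pos_on
    (intervalIntegrable_gI ⟨le_rfl, zero_le_one⟩ ⟨zero_le_one, le_rfl⟩) ?_ zero_lt_one
  intro x hx
  unfold gI
  exact inv_pos.2 (Real.sqrt_pos.2 (q_pos hx.1 hx.2))

theorem mem_Icc_of_q_nonneg {x : ℝ} (h : 0 ≤ x - x ^ 4) : x ∈ Icc (0:ℝ) 1 := by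
  have h' : 0 ≤ x * (1 - x ^ 3) := by linarith [h, (by ring : x * (1 - x ^ 3) = x - x ^ 4)]
  constructor
  · by_contra hx
    push Not at hx
    have : x ^ 3 < 0 := by
      have : x ^ 3 = x * x ^ 2 := by ring
      rw [this]
      exact mul_neg_of_neg_of_pos hx (sq_pos_of_ne_zero hx.ne)
    nlinarith
  · by_contra hx
    push Not at hx
    have : 1 < x ^ 3 := one_lt_pow₀ hx (by norm_num)
    nlinarith

theorem eq_zero_or_one_of_q {x : ℝ} (h : x - x ^ 4 = 0) : x = 0 ∨ x = 1 := by
  have h1 : x * (1 - x) * (1 + x + x ^ 2) = 0 := by linear_combination h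
  rcases mul_eq_zero.1 h1 with h2 | h2
  · rcases mul_eq_zero.1 h2 with h3 | h3
    · exact Or.inl h3
    · exact Or.inr (by linarith)
  · nlinarith [sq_nonneg (x + 1 / 2)]

/-- Main integrality statement. -/
theorem alpha_int {A B Z : ℝ[X]} {α : ℝ} (hAB : IsCoprime A B) (hZ : Z ≠ 0)
    (h : (X - X ^ 4) * Z ^ 2 = A * B ^ 3 - A ^ 4) (hW : wronskian B A = C α * Z) :
    (∀ t ∈ Icc (0:ℝ) 1, B.eval t ≠ 0) ∧ ∃ k : ℤ, α = k := by
  have hev : ∀ t, (t - t ^ 4) * (Z.eval t) ^ 2 = A.eval t * (B.eval t) ^ 3 - (A.eval t) ^ 4 := by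
    intro t
    have := congrArg (eval t) h
    simpa using this
  have hq : ∀ t ∈ Icc (0:ℝ) 1, 0 ≤ t - t ^ 4 := by
    intro t ht
    rcases ht.1.eq_or_lt with h0 | h0
    · rw [← h0]; simp
    · rcases ht.2.eq_or_lt with h1 | h1
      · rw [h1]; simp
      · exact (q_pos h0 h1).le
  have hB : ∀ t ∈ Icc (0:ℝ) 1, B.eval t ≠ 0 := by
    intro t ht hb
    have hA : A.eval t ≠ 0 := by
      intro ha
      obtain ⟨u, v, huv⟩ := hAB
      have := congrArg (eval t) huv
      simp [ha, hb] at this
    have h1 := hev t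
    rw [hb] at h1
    have h2 := mul_nonneg (hq t ht) (sq_nonneg (Z.eval t))
    rw [h1] at h2
    have : 0 < (A.eval t) ^ 4 := by positivity
    linarith
  refine ⟨hB, ?_⟩
  set x : ℝ → ℝ := fun t => A.eval t / B.eval t with hx
  set y : ℝ → ℝ := fun t => Z.eval t / (B.eval t) ^ 2 with hy
  have hxy : ∀ t ∈ Icc (0:ℝ) 1, x t - x t ^ 4 = (t - t ^ 4) * y t ^ 2 := by
    intro t ht
    have hb := hB t ht
    simp only [hx, hy]
    field_simp
    linear_combination -(hev t)
  have hxI : ∀ t ∈ Icc (0:ℝ) 1, x t ∈ Icc (0:ℝ) 1 := by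
    intro t ht
    apply mem_Icc_of_q_nonneg
    rw [hxy t ht]
    exact mul_nonneg (hq t ht) (sq_nonneg _)
  have hxd : ∀ t ∈ Icc (0:ℝ) 1, HasDerivAt x (α * y t) t := by
    intro t ht
    have hb := hB t ht
    have h1 := (A.hasDerivAt t).div (B.hasDerivAt t) hb
    refine h1.congr_deriv ?_
    have h2 := congrArg (eval t) hW
    simp only [wronskian, eval_sub, eval_mul, eval_C] at h2
    simp only [hy]
    field_simp
    linear_combination h2
  have hyc : ContinuousOn y (Icc 0 1) := by
    intro t ht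
    have hb := hB t ht
    exact (ContinuousAt.div Z.continuous.continuousAt (B.continuous.continuousAt.pow 2)
      (pow_ne_zero 2 hb)).continuousWithinAt
  have hxc : ContinuousOn x (Icc 0 1) := fun t ht => (hxd t ht).continuousAt.continuousWithinAt
  set Ω := PhiI 1 with hΩ
  have hΩ0 : 0 < Ω := PhiI_one_pos
  -- the angle functions
  set θ : ℝ → ℝ := fun t => Real.pi / Ω * PhiI (x t) with hθ
  set β : ℝ → ℝ := fun t => Real.pi * α / Ω * PhiI t with hβ
  have hθc : ContinuousOn θ (Icc 0 1) :=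
    continuousOn_const.mul (continuousOn_PhiI.comp hxc hxI)
  have hβc : ContinuousOn β (Icc 0 1) := continuousOn_const.mul continuousOn_PhiI
  set σ : ℝ → ℝ := fun t => Real.sign (y t) with hσ
  -- `sin θ` vanishes when `q (x t)` does
  have hsin0 : ∀ t ∈ Icc (0:ℝ) 1, (t - t ^ 4) * y t ^ 2 = 0 → Real.sin (θ t) = 0 := by
    intro t ht h0
    rw [← hxy t ht] at h0
    rcases eq_zero_or_one_of_q h0 with h1 | h1
    · simp only [hθ, h1, PhiI_zero, mul_zero, Real.sin_zero]
    · have : θ t = Real.pi := by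
        simp only [hθ, h1]
        rw [← hΩ]
        field_simp
      rw [this, Real.sin_pi]
  have hSc : ContinuousOn (fun t => σ t * Real.sin (θ t)) (Icc 0 1) := by
    intro t ht
    by_cases h0 : y t = 0
    · have hs0 : Real.sin (θ t) = 0 := hsin0 t ht (by rw [h0]; ring)
      have h1 : Filter.Tendsto (fun t => Real.sin (θ t)) (nhdsWithin t (Icc 0 1)) (nhds 0) := by
        have := (Real.continuous_sin.comp_continuousOn hθc) t ht
        rw [ContinuousWithinAt] at this
        simp only [Function.comp, hs0] at this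
        exact this
      rw [ContinuousWithinAt]
      simp only [hs0, mul_zero]
      refine squeeze_zero_norm (fun s => ?_) (by simpa using h1.norm)
      rw [norm_mul]
      have : ‖σ s‖ ≤ 1 := by
        simp only [hσ]
        rcases Real.sign_apply_eq (y s) with h | h | h <;> rw [h] <;> simp
      calc ‖σ s‖ * ‖Real.sin (θ s)‖ ≤ 1 * ‖Real.sin (θ s)‖ := by gcongr
        _ = ‖Real.sin (θ s)‖ := one_mul _
    · have h1 : ContinuousWithinAt σ (Icc 0 1) t := by
        have hyt := hyc t ht
        rcases lt_or_gt_of_ne h0 with h2 | h2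
        · have : ∀ᶠ s in nhdsWithin t (Icc 0 1), σ s = -1 := by
            filter_upwards [hyt.eventually (gt_mem_nhds h2)] with s hs
            exact Real.sign_of_neg hs
          exact (continuousWithinAt_const (b := (-1 : ℝ))).congr_of_eventuallyEq this
            (Real.sign_of_neg h2)
        · have : ∀ᶠ s in nhdsWithin t (Icc 0 1), σ s = 1 := by
            filter_upwards [hyt.eventually (lt_mem_nhds h2)] with s hs
            exact Real.sign_of_pos hs
          exact (continuousWithinAt_const (b := (1 : ℝ))).congr_of_eventuallyEq this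
            (Real.sign_of_pos h2)
      exact h1.mul ((Real.continuous_sin.comp_continuousOn hθc) t ht)
  set V : ℝ → ℝ := fun t => σ t * Real.sin (θ t) * Real.cos (β t) -
    Real.cos (θ t) * Real.sin (β t) with hV
  have hVc : ContinuousOn V (Icc 0 1) :=
    (hSc.mul (Real.continuous_cos.comp_continuousOn hβc)).sub
      ((Real.continuous_cos.comp_continuousOn hθc).mul (Real.continuous_sin.comp_continuousOn hβc))
  have hVd : ∀ t ∈ Ioo (0:ℝ) 1 \ {t | Z.eval t = 0}, HasDerivAt V 0 t := by
    rintro t ⟨ht, hz⟩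
    have htI := Ioo_subset_Icc_self ht
    have hb := hB t htI
    have hz : Z.eval t ≠ 0 := hz
    have hy0 : y t ≠ 0 := div_ne_zero hz (pow_ne_zero 2 hb)
    have hqt := q_pos ht.1 ht.2
    have hqx : 0 < x t - x t ^ 4 := by
      rw [hxy t htI]
      positivity
    have hxt : x t ∈ Ioo (0:ℝ) 1 := by
      have h1 := hxI t htI
      refine ⟨lt_of_le_of_ne h1.1 ?_, lt_of_le_of_ne h1.2 ?_⟩
      · intro h0; rw [← h0] at hqx; simp at hqx
      · intro h0; rw [h0] at hqx; simp at hqx
    -- derivative of θ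
    have hg : gI (x t) * |y t| = gI t := by
      unfold gI
      rw [hxy t htI, Real.sqrt_mul hqt.le, Real.sqrt_sq_eq_abs]
      have : |y t| ≠ 0 := abs_ne_zero.2 hy0
      have h3 : √(t - t ^ 4) ≠ 0 := (Real.sqrt_pos.2 hqt).ne'
      field_simp
    have hsy : σ t * |y t| = y t := by
      simp only [hσ]
      rcases lt_or_gt_of_ne hy0 with h2 | h2
      · rw [Real.sign_of_neg h2, abs_of_neg h2]; ring
      · rw [Real.sign_of_pos h2, abs_of_pos h2]; ring
    have hss : σ t * σ t = 1 := by
      simp only [hσ]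
      rcases lt_or_gt_of_ne hy0 with h2 | h2
      · rw [Real.sign_of_neg h2]; norm_num
      · rw [Real.sign_of_pos h2]; norm_num
    have hβd : HasDerivAt β (Real.pi * α / Ω * gI t) t := (hasDerivAt_PhiI ht).const_mul _
    have hθd : HasDerivAt θ (σ t * (Real.pi * α / Ω * gI t)) t := by
      have h1 := ((hasDerivAt_PhiI hxt).comp t (hxd t htI)).const_mul (Real.pi / Ω)
      refine h1.congr_deriv ?_
      rw [← hg]
      linear_combination (-(Real.pi / Ω * gI (x t) * α)) * hsy
    have hσd : HasDerivAt σ 0 t := by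
      have hyt : ContinuousAt y t := hyc.continuousAt (Icc_mem_nhds ht.1 ht.2)
      rcases lt_or_gt_of_ne hy0 with h2 | h2
      · have : σ =ᶠ[nhds t] fun _ => -1 := by
          filter_upwards [hyt.eventually (gt_mem_nhds h2)] with s hs
          exact Real.sign_of_neg hs
        exact (hasDerivAt_const t (-1 : ℝ)).congr_of_eventuallyEq this
      · have : σ =ᶠ[nhds t] fun _ => 1 := by
          filter_upwards [hyt.eventually (lt_mem_nhds h2)] with s hs
          exact Real.sign_of_pos hs
        exact (hasDerivAt_const t (1 : ℝ)).congr_of_eventuallyEq this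
    have h1 := ((hσd.mul hθd.sin).mul hβd.cos).sub (hθd.cos.mul hβd.sin)
    refine h1.congr_deriv ?_
    simp only [Pi.mul_apply]
    linear_combination (Real.cos (θ t) * Real.cos (β t) * (Real.pi * α / Ω * gI t)) * hss
  have hfin : {t : ℝ | Z.eval t = 0}.Countable :=
    (Polynomial.finite_setOfPred_isRoot hZ).countable
  have hV01 : V 1 = V 0 := by
    have := MeasureTheory.integral_eq_of_hasDerivAt_off_countable_of_le V (fun _ => 0)
      zero_le_one hfin hVc hVd (by simp)
    simp only [intervalIntegral.integral_zero] at this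
    linarith
  have hS0 : Real.sin (θ 0) = 0 := hsin0 0 ⟨le_rfl, zero_le_one⟩ (by ring)
  have hS1 : Real.sin (θ 1) = 0 := hsin0 1 ⟨zero_le_one, le_rfl⟩ (by ring)
  have hβ0 : β 0 = 0 := by simp only [hβ, PhiI_zero, mul_zero]
  have hβ1 : β 1 = Real.pi * α := by
    simp only [hβ]
    rw [← hΩ]
    field_simp
  have hC1 : Real.cos (θ 1) ≠ 0 := by
    intro h0
    have := Real.sin_sq_add_cos_sq (θ 1)
    rw [hS1, h0] at this
    norm_num at this
  have : Real.sin (Real.pi * α) = 0 := by
    simp only [hV, hS0, hS1, hβ0, hβ1, Real.sin_zero] at hV01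
    have h1 : Real.cos (θ 1) * Real.sin (Real.pi * α) = 0 := by linear_combination -hV01
    exact (mul_eq_zero.1 h1).resolve_left hC1
  rw [Real.sin_eq_zero_iff] at this
  obtain ⟨k, hk⟩ := this
  refine ⟨k, ?_⟩
  have hpi := Real.pi_ne_zero
  have : Real.pi * α = Real.pi * k := by rw [← hk]; ring
  exact mul_left_cancel₀ hpi this

end Pool.Agent.H.MP_397872_lc
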