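import Mathlib
import Pool.Agent.H.MP_397872_lc.Ell
import Pool.Agent.H.MP_397872_lc.Period
import Pool.Agent.H.MP_397872_lc.Base

open Polynomial Set

namespace Pool.Agent.H.MP_397872_lc

theorem squarefree_q : Squarefree (X - X ^ 4 : ℝ[X]) := by
  apply Polynomial.Separable.squarefree
  rw [Polynomial.separable_def]
  have hd : derivative (X - X ^ 4 : ℝ[X]) = 1 - 4 * X ^ 3 := by
    simp only [derivative_sub, derivative_X, derivative_X_pow]
    simp only [Nat.cast_ofNat, map_ofNat]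
  rw [hd]
  have h1 : (C (16 / 3 : ℝ) : ℝ[X]) = 4 * C (4 / 3 : ℝ) := by
    rw [← map_ofNat (C : ℝ →+* ℝ[X]) 4, ← C_mul]
    norm_num
  have h2 : (3 : ℝ[X]) * C (4 / 3 : ℝ) = 4 := by
    rw [← map_ofNat (C : ℝ →+* ℝ[X]) 4, ← map_ofNat (C : ℝ →+* ℝ[X]) 3, ← C_mul]
    norm_num
  refine ⟨C (16 / 3 : ℝ) * X ^ 2, 1 - C (4 / 3 : ℝ) * X ^ 3, ?_⟩
  rw [h1]
  linear_combination X ^ 3 * h2

/-- Every point of the twisted curve over `ℝ(t)` has an integral multiplier at `0`. -/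
theorem ell_val {x Y : RatFunc ℝ}
    (h : (RatFunc.X - RatFunc.X ^ 4) * Y ^ 2 = x - x ^ 4) : ∃ k : ℤ, HasVal Y (k : ℝ) := by
  set φ := algebraMap ℝ[X] (RatFunc ℝ) with hφ
  have hφi : Function.Injective φ := RatFunc.algebraMap_injective ℝ
  set A := x.num with hA
  set B := x.denom with hB
  have hAB : IsCoprime A B := RatFunc.isCoprime_num_denom x
  have hB0 : φ B ≠ 0 := RatFunc.algebraMap_ne_zero x.denom_ne_zero
  have e1 : φ A = x * φ B := by rw [← div_eq_iff hB0, RatFunc.num_div_denom]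
  -- `Z = Y * B ^ 2` is a polynomial
  set z := Y * φ B ^ 2 with hz
  have hz2 : φ (X - X ^ 4) * z ^ 2 = φ (A * B ^ 3 - A ^ 4) := by
    simp only [map_sub, map_mul, map_pow, e1, hz]
    rw [show φ X = RatFunc.X from RatFunc.algebraMap_X]
    linear_combination (φ B) ^ 4 * h
  have hv0 : φ z.denom ≠ 0 := RatFunc.algebraMap_ne_zero z.denom_ne_zero
  have e2 : φ z.num = z * φ z.denom := by rw [← div_eq_iff hv0, RatFunc.num_div_denom]
  have h3 : (X - X ^ 4) * z.num ^ 2 = z.denom ^ 2 * (A * B ^ 3 - A ^ 4) := by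
    apply hφi
    rw [map_mul, map_mul, ← hz2, map_pow, map_pow, e2]
    ring
  have hvu : IsUnit z.denom := by
    apply squarefree_q
    rw [← sq]
    have hc : IsCoprime (z.denom ^ 2) (z.num ^ 2) := (RatFunc.isCoprime_num_denom z).symm.pow
    exact hc.dvd_of_dvd_mul_right ⟨_, h3⟩
  obtain ⟨Z, hZ⟩ : ∃ Z : ℝ[X], z = φ Z := by
    rw [Polynomial.isUnit_iff] at hvu
    obtain ⟨r, hr, hr2⟩ := hvu
    refine ⟨C r⁻¹ * z.num, ?_⟩
    rw [map_mul, e2, ← hr2, hφ, RatFunc.algebraMap_C, RatFunc.algebraMap_C]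
    have : (RatFunc.C r : RatFunc ℝ) ≠ 0 := by simpa using hr.ne_zero
    rw [map_inv₀]
    field_simp
  have hpoly : (X - X ^ 4) * Z ^ 2 = A * B ^ 3 - A ^ 4 := by
    apply hφi
    rw [← hz2, hZ, map_mul, map_pow]
  by_cases hZ0 : Z = 0
  · refine ⟨0, ?_⟩
    have : Y = 0 := by
      rw [hZ0, map_zero, hz] at hZ
      exact (mul_eq_zero.1 hZ).resolve_right (pow_ne_zero 2 hB0)
    rw [this]
    simpa using hasVal_C (0 : ℝ)
  obtain ⟨α, hα⟩ := wronskian_eq hAB hZ0 hpoly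
  obtain ⟨hBn, k, hk⟩ := alpha_int hAB hZ0 hpoly hα
  have hb : B.eval 0 ≠ 0 := hBn 0 ⟨le_rfl, zero_le_one⟩
  have hY : HasVal Y (Z.eval 0 / (B.eval 0) ^ 2) := by
    refine ⟨Z, B ^ 2, ?_, ?_, ?_⟩
    · rw [eval_pow]; exact pow_ne_zero 2 hb
    · rw [map_pow]; exact hZ
    · rw [eval_pow]; field_simp
  -- the relation at `0`
  have r0 : A.eval 0 * (B.eval 0) ^ 3 - (A.eval 0) ^ 4 = 0 := by
    have := congrArg (eval 0) hpoly
    simp only [eval_mul, eval_sub, eval_pow, eval_X] at this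
    linear_combination -this
  have r1 : (Z.eval 0) ^ 2 = (derivative A).eval 0 * (B.eval 0) ^ 3 +
      3 * A.eval 0 * (B.eval 0) ^ 2 * (derivative B).eval 0 -
      4 * (A.eval 0) ^ 3 * (derivative A).eval 0 := by
    have := congrArg (fun p => eval 0 (derivative p)) hpoly
    simp only [derivative_mul, derivative_pow, derivative_sub, derivative_X, eval_mul, eval_sub,
      eval_pow, eval_X, eval_add, eval_C] at this
    norm_num at this
    linear_combination this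
  have r2 : B.eval 0 * (derivative A).eval 0 - (derivative B).eval 0 * A.eval 0 = α * Z.eval 0 := by
    have := congrArg (eval 0) hα
    simpa [wronskian] using this
  have r3 : A.eval 0 * (B.eval 0 - A.eval 0) = 0 := by
    have h4 : A.eval 0 * (B.eval 0 - A.eval 0) *
        ((B.eval 0) ^ 2 + A.eval 0 * B.eval 0 + (A.eval 0) ^ 2) = 0 := by
      linear_combination r0
    rcases mul_eq_zero.1 h4 with h5 | h5
    · exact h5
    · exfalso
      have : 0 < (B.eval 0) ^ 2 := by positivity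
      nlinarith [sq_nonneg (A.eval 0 + B.eval 0 / 2)]
  by_cases hz0 : Z.eval 0 = 0
  · refine ⟨0, ?_⟩
    rw [hz0, zero_div] at hY
    simpa using hY
  rcases mul_eq_zero.1 r3 with h5 | h5
  · refine ⟨k, ?_⟩
    rw [h5] at r1 r2
    have h6 : Z.eval 0 * (Z.eval 0 - α * (B.eval 0) ^ 2) = 0 := by
      linear_combination r1 + (B.eval 0) ^ 2 * r2
    have h7 := (mul_eq_zero.1 h6).resolve_left hz0
    have : Z.eval 0 / (B.eval 0) ^ 2 = k := by
      rw [div_eq_iff (pow_ne_zero 2 hb), ← hk]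
      linear_combination h7
    rw [this] at hY
    exact hY
  · refine ⟨-3 * k, ?_⟩
    have h8 : A.eval 0 = B.eval 0 := by linear_combination -h5
    rw [h8] at r1 r2
    have h6 : Z.eval 0 * (Z.eval 0 + 3 * α * (B.eval 0) ^ 2) = 0 := by
      linear_combination r1 - 3 * (B.eval 0) ^ 2 * r2
    have h7 := (mul_eq_zero.1 h6).resolve_left hz0
    have : Z.eval 0 / (B.eval 0) ^ 2 = (-3 * k : ℤ) := by
      rw [div_eq_iff (pow_ne_zero 2 hb)]
      push_cast
      rw [← hk]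
      linear_combination h7
    rw [this] at hY
    exact hY

/-- The sum-of-squares certificate forces regularity at `0`. -/
theorem reg_of_cert {h a b : RatFunc ℝ} {M δ : ℝ} (hδ : δ ≠ 0)
    (hc : (RatFunc.C M) ^ 2 - h ^ 2 * ((RatFunc.C δ) ^ 2 - RatFunc.X ^ 2) = a ^ 2 + b ^ 2) :
    ∃ c, HasVal h c := by
  set φ := algebraMap ℝ[X] (RatFunc ℝ) with hφ
  have hφi : Function.Injective φ := RatFunc.algebraMap_injective ℝ
  have den : ∀ x : RatFunc ℝ, φ x.num = x * φ x.denom := by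
    intro x
    rw [← div_eq_iff (RatFunc.algebraMap_ne_zero x.denom_ne_zero), RatFunc.num_div_denom]
  set p := h.num
  set q := h.denom
  have hq0 : q ≠ 0 := h.denom_ne_zero
  have hpq : IsCoprime p q := RatFunc.isCoprime_num_denom h
  have e1 : φ p = h * φ q := den h
  -- the polynomial identity
  set d := a.denom * b.denom with hd
  have hd0 : d ≠ 0 := mul_ne_zero a.denom_ne_zero b.denom_ne_zero
  have key : (C M ^ 2 * q ^ 2 - p ^ 2 * (C δ ^ 2 - X ^ 2)) * d ^ 2 =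
      ((a.num * b.denom * q) ^ 2 + (b.num * a.denom * q) ^ 2) := by
    apply hφi
    simp only [hd, map_mul, map_sub, map_add, map_pow, e1, den a, den b]
    rw [show φ X = RatFunc.X from RatFunc.algebraMap_X,
      show φ (C M) = RatFunc.C M from RatFunc.algebraMap_C M,
      show φ (C δ) = RatFunc.C δ from RatFunc.algebraMap_C δ]
    linear_combination (φ q * φ a.denom * φ b.denom) ^ 2 * hc
  set R : ℝ[X] := C M ^ 2 * q ^ 2 - p ^ 2 * (C δ ^ 2 - X ^ 2) with hR
  have hRnn : ∀ t : ℝ, d.eval t ≠ 0 → 0 ≤ R.eval t := by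
    intro t ht
    have h1 := congrArg (eval t) key
    rw [eval_mul, eval_pow] at h1
    have h2 : 0 ≤ R.eval t * (d.eval t) ^ 2 := by
      rw [h1]
      simp only [eval_add, eval_pow]
      positivity
    by_contra hneg
    push Not at hneg
    have : R.eval t * (d.eval t) ^ 2 < 0 := mul_neg_of_neg_of_pos hneg (by positivity)
    linarith
  have hR0 : 0 ≤ R.eval 0 := by
    have hcl : IsClosed {t : ℝ | 0 ≤ R.eval t} := isClosed_le continuous_const R.continuous
    have hfin : {t : ℝ | d.eval t = 0}.Finite := Polynomial.finite_setOfPred_isRoot hd0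
    have hdense : Dense ({t : ℝ | d.eval t = 0}ᶜ) := hfin.countable.dense_compl ℝ
    have hsub : {t : ℝ | d.eval t = 0}ᶜ ⊆ {t : ℝ | 0 ≤ R.eval t} := fun t ht => hRnn t ht
    have := hdense.mono hsub
    have h3 := hcl.closure_eq
    rw [this.closure_eq] at h3
    have : (0:ℝ) ∈ {t : ℝ | 0 ≤ R.eval t} := by rw [← h3]; trivial
    exact this
  have hq : q.eval 0 ≠ 0 := by
    intro h0
    have hp : p.eval 0 ≠ 0 := by
      intro h1
      obtain ⟨u, v, huv⟩ := hpq
      have := congrArg (eval 0) huv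
      simp [h0, h1] at this
    have h2 : R.eval 0 = -(p.eval 0) ^ 2 * δ ^ 2 := by
      simp only [hR, eval_sub, eval_mul, eval_pow, eval_C, eval_X, h0]
      ring
    have h3 : 0 < (p.eval 0) ^ 2 * δ ^ 2 := by positivity
    linarith [h2, hR0]
  exact ⟨p.eval 0 / q.eval 0, p, q, hq, e1.symm, by field_simp⟩

/-- The existential formula defining natural numbers in `F` with parameter `t`. -/
def NatP {F : Type} [Field F] (t n : F) : Prop :=
  ∃ s w x y h M w₁ δ w₂ δ' a b : F, n = s ^ 2 ∧ s ^ 3 + w ^ 3 = 1 ∧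
    (t - t ^ 4) * y ^ 2 = x - x ^ 4 ∧ y - n = t * h ∧ M ^ 3 + w₁ ^ 3 = 1 ∧ δ ^ 3 + w₂ ^ 3 = 1 ∧
    δ * δ' = 1 ∧ M ^ 2 - h ^ 2 * (δ ^ 2 - t ^ 2) = a ^ 2 + b ^ 2

theorem natP_sound {n : RatFunc ℝ} (h : NatP (RatFunc.X) n) : ∃ k : ℕ, n = k := by
  obtain ⟨s, w, x, y, h, M, w₁, δ, w₂, δ', a, b, hn, hs, hxy, hy, hM, hδ, hδ', hc⟩ := h
  obtain ⟨s, rfl⟩ := fermat_const hs
  obtain ⟨M, rfl⟩ := fermat_const hM
  obtain ⟨δ, rfl⟩ := fermat_const hδ
  have hδ0 : δ ≠ 0 := by
    rintro rfl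
    simp at hδ'
  obtain ⟨c, hh⟩ := reg_of_cert hδ0 hc
  obtain ⟨k, hk⟩ := ell_val hxy
  have hn' : n = RatFunc.C (s ^ 2) := by rw [hn, map_pow]
  have h1 : HasVal y (s ^ 2) := by
    have h2 : y = RatFunc.X * h + RatFunc.C (s ^ 2) := by
      rw [← hn', ← hy]; ring
    have h3 := (hasVal_X.mul hh).add (hasVal_C (s ^ 2))
    rw [← h2] at h3
    simpa using h3
  have h2 : (k : ℝ) = s ^ 2 := hk.unique h1
  have h3 : 0 ≤ k := by
    have : (0:ℝ) ≤ (k:ℝ) := by rw [h2]; positivity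
    exact_mod_cast this
  obtain ⟨m, rfl⟩ := Int.eq_ofNat_of_zero_le h3
  refine ⟨m, ?_⟩
  rw [hn', ← h2]
  simp

end Pool.Agent.H.MP_397872_lc
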