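import Mathlib
import Pool.Agent.H.MP_397872_lc.Base
import Pool.Agent.H.MP_397872_lc.SOS
import Pool.Agent.H.MP_397872_lc.Sound

open Polynomial Set

namespace Pool.Agent.H.MP_397872_lc

/-- The chord construction on the curve `D v² = u³ - c`, `D = 1 - c`, through `(1, 1)`. -/
theorem chord {F : Type} [Field F] {u v c : F} (hu : u ≠ 1)
    (h : (1 - c) * v ^ 2 = u ^ 3 - c) :
    (1 - c) * (-(v + (v - 1) / (u - 1) * ((1 - c) * ((v - 1) / (u - 1)) ^ 2 - u - 1 - u))) ^ 2 =
      ((1 - c) * ((v - 1) / (u - 1)) ^ 2 - u - 1) ^ 3 - c := by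
  have hu' : u - 1 ≠ 0 := sub_ne_zero.2 hu
  obtain ⟨m, hm⟩ : ∃ m, v = 1 + m * (u - 1) := ⟨(v - 1) / (u - 1), by field_simp; ring⟩
  have hm' : (v - 1) / (u - 1) = m := by rw [hm]; field_simp; ring
  rw [hm']
  apply mul_left_cancel₀ hu'
  subst hm
  linear_combination ((1 - c) * m ^ 2 - u - 1 - 1) * h

/-- Existence of the multiples of the generic point, in the coordinates `u = 1/P`, `v = Y/P²`. -/
theorem exists_uv (K : Type) [Field K] [CharZero K] (n : ℕ) (hn : 1 ≤ n) :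
    ∃ u v : RatFunc K, (1 - RatFunc.X ^ 3) * v ^ 2 = u ^ 3 - RatFunc.X ^ 3 ∧
      HasVal u (1 / (n : K) ^ 2) ∧ HasVal v (1 / (n : K) ^ 3) := by
  have hX3 : HasVal (RatFunc.X ^ 3 : RatFunc K) 0 := by simpa using (hasVal_X (K := K)).pow 3
  have hc : ∀ m : ℕ, HasVal ((m : RatFunc K)) (m : K) := by
    intro m
    have := hasVal_C (K := K) (m : K)
    simpa using this
  induction n, hn using Nat.le_induction with
  | base =>
    refine ⟨1, 1, by ring, ?_, ?_⟩
    · simpa using hasVal_one (K := K)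
    · simpa using hasVal_one (K := K)
  | succ n hn ih =>
    rcases hn.eq_or_lt with h1 | h1
    · -- doubling
      subst h1
      set c : RatFunc K := RatFunc.X ^ 3 with hcdef
      have hD : HasVal (1 - c) 1 := by simpa using (hasVal_one (K := K)).sub hX3
      have hD0 : 1 - c ≠ 0 := hD.ne_zero one_ne_zero
      refine ⟨(1 + 8 * c) / (4 * (1 - c)), (1 - 20 * c - 8 * c ^ 2) / (8 * (1 - c) ^ 2), ?_, ?_, ?_⟩
      · have h4 : (4 : RatFunc K) ≠ 0 := by norm_num
        have h8 : (8 : RatFunc K) ≠ 0 := by norm_num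
        field_simp
        ring
      · have h8 := hc 8
        have h4 := hc 4
        have h5 := ((hasVal_one (K := K)).add (h8.mul hX3)).div (h4.mul hD) (by norm_num)
        convert h5 using 1 <;> push_cast <;> norm_num
      · have h8 := hc 8
        have h20 := hc 20
        have h5 := (((hasVal_one (K := K)).sub (h20.mul hX3)).sub (h8.mul (hX3.pow 2))).div
          (h8.mul (hD.pow 2)) (by norm_num)
        convert h5 using 1 <;> push_cast <;> norm_num
    · obtain ⟨u, v, heq, hu, hv⟩ := ih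
      have hn0 : (n : K) ≠ 0 := by
        have : n ≠ 0 := by omega
        exact_mod_cast this
      have hn1 : (n : K) - 1 ≠ 0 := by
        have : (n : K) ≠ 1 := by
          have : n ≠ 1 := by omega
          exact_mod_cast this
        exact sub_ne_zero.2 this
      have hn2 : (n : K) + 1 ≠ 0 := by
        have : n + 1 ≠ 0 := by omega
        exact_mod_cast this
      have hu1v : 1 / (n : K) ^ 2 - 1 ≠ 0 := by
        have : 1 / (n : K) ^ 2 - 1 = -((n - 1) * (n + 1) / n ^ 2) := by field_simp; ring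
        rw [this]
        exact neg_ne_zero.2 (div_ne_zero (mul_ne_zero hn1 hn2) (pow_ne_zero 2 hn0))
      have hu1 : HasVal (u - 1) (1 / (n : K) ^ 2 - 1) := hu.sub hasVal_one
      have hune : u ≠ 1 := by
        have := hu1.ne_zero hu1v
        exact sub_ne_zero.1 this
      have hm : HasVal ((v - 1) / (u - 1)) ((1 / (n : K) ^ 3 - 1) / (1 / (n : K) ^ 2 - 1)) :=
        (hv.sub hasVal_one).div hu1 hu1v
      have hD : HasVal (1 - RatFunc.X ^ 3 : RatFunc K) 1 := by
        simpa using (hasVal_one (K := K)).sub hX3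
      have hu' := (((hD.mul (hm.pow 2)).sub hu).sub (hasVal_one (K := K)))
      have hv' := (hv.add (hm.mul (hu'.sub hu))).neg
      have e1 : (1 / (n : K) ^ 3 - 1) / (1 / (n : K) ^ 2 - 1) =
          (1 + n + n ^ 2) / (n * (n + 1)) := by
        rw [div_eq_div_iff hu1v (mul_ne_zero hn0 hn2)]
        field_simp
        ring
      refine ⟨_, _, chord hune heq, ?_, ?_⟩
      · convert hu' using 1
        rw [e1]
        push_cast
        field_simp
        ring
      · convert hv' using 1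
        rw [e1]
        push_cast
        field_simp
        ring

/-- An element of value `0` is divisible by `X`, with regular quotient. -/
theorem HasVal.div_X {K : Type} [Field K] {g : RatFunc K} (h : HasVal g 0) :
    ∃ k : RatFunc K, g = RatFunc.X * k ∧ ∃ c, HasVal k c := by
  obtain ⟨p, q, hq, e, h0⟩ := h
  rw [zero_mul] at h0
  obtain ⟨p', rfl⟩ : X ∣ p := by
    rw [X_dvd_iff, coeff_zero_eq_eval_zero]
    exact h0
  have hq0 : algebraMap K[X] (RatFunc K) q ≠ 0 := by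
    apply RatFunc.algebraMap_ne_zero
    rintro rfl
    exact hq eval_zero
  refine ⟨algebraMap K[X] (RatFunc K) p' / algebraMap K[X] (RatFunc K) q, ?_,
    p'.eval 0 / q.eval 0, p', q, hq, ?_, ?_⟩
  · rw [map_mul, RatFunc.algebraMap_X] at e
    field_simp
    exact e
  · field_simp
  · field_simp

/-- Existence of the certificate of regularity at `0` over the real algebraic numbers. -/
theorem cert_of_reg {h : RatFunc Ralg} {c : Ralg} (hh : HasVal h c) :
    ∃ (M δ : Ralg) (a b : RatFunc Ralg), δ ≠ 0 ∧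
      (RatFunc.C M) ^ 2 - h ^ 2 * ((RatFunc.C δ) ^ 2 - RatFunc.X ^ 2) = a ^ 2 + b ^ 2 := by
  obtain ⟨p, q, hq, e, -⟩ := hh
  have hcont : ∀ r : Ralg[X], Continuous fun t : ℝ => aeval t r := fun r => r.continuous_aeval
  have hq0 : aeval (0:ℝ) q ≠ 0 := by
    intro h0
    apply hq
    have h1 : (algebraMap Ralg ℝ) (q.eval 0) = 0 := by
      rw [← aeval_algebraMap_apply_eq_algebraMap_eval, map_zero]
      exact h0
    exact (map_eq_zero _).1 h1
  set q0 : ℝ := |aeval (0:ℝ) q| with hq0def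
  have hq0pos : 0 < q0 := abs_pos.2 hq0
  -- `|q| ≥ q0 / 2` near `0`
  obtain ⟨ε, hε, hqε⟩ : ∃ ε > 0, ∀ t : ℝ, |t| < ε → q0 / 2 < |aeval t q| := by
    have h1 : Continuous fun t : ℝ => |aeval t q| := (hcont q).abs
    have h2 : ∀ᶠ t in nhds (0:ℝ), q0 / 2 < |aeval t q| :=
      h1.continuousAt.eventually (lt_mem_nhds (half_lt_self hq0pos))
    rw [Metric.eventually_nhds_iff] at h2
    obtain ⟨ε, hε, h3⟩ := h2
    refine ⟨ε, hε, fun t ht => h3 ?_⟩
    rw [Real.dist_eq, sub_zero]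
    exact ht
  -- `|p| ≤ L` on `[-1, 1]`
  obtain ⟨L, hL⟩ : ∃ L, ∀ t ∈ Icc (-1:ℝ) 1, ‖aeval t p‖ ≤ L :=
    isCompact_Icc.exists_bound_of_continuousOn (hcont p).continuousOn
  obtain ⟨N, hN⟩ : ∃ N : ℕ, 1 / ((N : ℝ) + 1) < ε := exists_nat_one_div_lt hε
  obtain ⟨M, hM⟩ : ∃ M : ℕ, 2 * L / q0 ≤ M := exists_nat_ge _
  set δ : Ralg := 1 / ((N : Ralg) + 1) with hδdef
  have hδr : ((δ : Ralg) : ℝ) = 1 / ((N : ℝ) + 1) := by
    rw [hδdef]
    push_cast
    rfl
  have hδpos : 0 < ((δ : Ralg) : ℝ) := by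
    rw [hδr]; positivity
  have hδ1 : ((δ : Ralg) : ℝ) ≤ 1 := by
    rw [hδr, div_le_one (by positivity)]
    have : (0:ℝ) ≤ N := Nat.cast_nonneg N
    linarith
  have hδ0 : δ ≠ 0 := by
    intro h0
    rw [h0] at hδpos
    simp at hδpos
  obtain ⟨a, b, hab⟩ := sos (C (M : Ralg) ^ 2 * q ^ 2 - p ^ 2 * (C δ ^ 2 - X ^ 2)) (by
    intro t
    simp only [map_sub, map_mul, map_pow, aeval_C, aeval_X]
    have e1 : (algebraMap Ralg ℝ) (M : Ralg) = (M : ℝ) := by simp
    have e2 : (algebraMap Ralg ℝ) δ = ((δ : Ralg) : ℝ) := rfl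
    rw [e1, e2]
    by_cases ht : |t| < ((δ : Ralg) : ℝ)
    · have h1 : q0 / 2 < |aeval t q| := by
        apply hqε
        rw [hδr] at ht
        exact ht.trans hN
      have h2 : |aeval t p| ≤ L := by
        exact hL t (mem_Icc.2 (abs_le.1 (ht.le.trans hδ1)))
      have h3 : L ≤ M * (q0 / 2) := by
        rw [div_le_iff₀ hq0pos] at hM
        linarith
      have h4 : |aeval t p| ≤ |(M:ℝ) * aeval t q| := by
        rw [abs_mul, abs_of_nonneg (Nat.cast_nonneg M : (0:ℝ) ≤ M)]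
        calc |aeval t p| ≤ L := h2
          _ ≤ M * (q0 / 2) := h3
          _ ≤ M * |aeval t q| := by gcongr
      have h5 : (aeval t p) ^ 2 ≤ ((M:ℝ) * aeval t q) ^ 2 := sq_le_sq.2 h4
      have h6 : ((δ : Ralg) : ℝ) ^ 2 ≤ 1 := pow_le_one₀ hδpos.le hδ1
      nlinarith [mul_nonneg (sq_nonneg (aeval t p)) (sub_nonneg.2 h6),
        mul_nonneg (sq_nonneg (aeval t p)) (sq_nonneg t)]
    · push Not at ht
      have h1 : ((δ : Ralg) : ℝ) ^ 2 ≤ t ^ 2 := by
        rw [← sq_abs t]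
        exact pow_le_pow_left₀ hδpos.le ht 2
      nlinarith [mul_nonneg (sq_nonneg (aeval t p)) (sub_nonneg.2 h1),
        sq_nonneg ((M:ℝ) * aeval t q)])
  set φ := algebraMap Ralg[X] (RatFunc Ralg) with hφ
  have hq1 : φ q ≠ 0 := by
    apply RatFunc.algebraMap_ne_zero
    rintro rfl
    exact hq eval_zero
  refine ⟨M, δ, φ a / φ q, φ b / φ q, hδ0, ?_⟩
  have h1 := congrArg φ hab
  simp only [map_sub, map_mul, map_pow, map_add] at h1
  rw [show φ X = RatFunc.X from RatFunc.algebraMap_X,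
    show φ (C (M : Ralg)) = RatFunc.C (M : Ralg) from RatFunc.algebraMap_C _,
    show φ (C δ) = RatFunc.C δ from RatFunc.algebraMap_C δ, ← e] at h1
  field_simp
  linear_combination h1

theorem fermat_partner (a : Ralg) : ∃ b : Ralg, a ^ 3 + b ^ 3 = 1 := by
  obtain ⟨s, hs, hs3⟩ := exists_cube_mem (sub_mem (one_mem Ralg) (pow_mem a.2 3))
  refine ⟨⟨s, hs⟩, ?_⟩
  apply Subtype.ext
  push_cast
  rw [hs3]
  ring

theorem natP_complete (n : ℕ) : NatP (RatFunc.X : RatFunc Ralg) (n : RatFunc Ralg) := by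
  -- the curve part
  obtain ⟨x, y, k, hxy, hy, c, hk⟩ : ∃ x y k : RatFunc Ralg,
      (RatFunc.X - RatFunc.X ^ 4) * y ^ 2 = x - x ^ 4 ∧ y - (n : RatFunc Ralg) = RatFunc.X * k ∧
        ∃ c, HasVal k c := by
    rcases Nat.eq_zero_or_pos n with rfl | hn
    · exact ⟨0, 0, 0, by ring, by simp, 0, by simpa using hasVal_C (0 : Ralg)⟩
    · obtain ⟨u, v, heq, hu, hv⟩ := exists_uv Ralg n hn
      have hn0 : (n : Ralg) ≠ 0 := by
        have : n ≠ 0 := by omega
        exact_mod_cast this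
      have hu0 : u ≠ 0 := hu.ne_zero (by positivity)
      have hyv : HasVal (v / u ^ 2 - (n : RatFunc Ralg)) 0 := by
        have h1 := (hv.div (hu.pow 2) (by positivity)).sub (hasVal_C (n : Ralg))
        convert h1 using 1
        · simp
        · field_simp
          ring
      obtain ⟨k, hk, c, hc⟩ := hyv.div_X
      refine ⟨RatFunc.X / u, v / u ^ 2, k, ?_, hk, c, hc⟩
      field_simp
      linear_combination RatFunc.X * heq
  obtain ⟨M, δ, a, b, hδ, hab⟩ := cert_of_reg hk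
  obtain ⟨w₁, hw₁⟩ := fermat_partner M
  obtain ⟨w₂, hw₂⟩ := fermat_partner δ
  have hs : √(n:ℝ) ∈ Ralg := sqrt_mem (natCast_mem Ralg n) (Nat.cast_nonneg n)
  obtain ⟨w, hw⟩ := fermat_partner ⟨√(n:ℝ), hs⟩
  have cast3 : ∀ {a b : Ralg}, a ^ 3 + b ^ 3 = 1 →
      (RatFunc.C a : RatFunc Ralg) ^ 3 + (RatFunc.C b) ^ 3 = 1 := by
    intro a b hab
    rw [← map_pow, ← map_pow, ← map_add, hab, map_one]
  refine ⟨RatFunc.C ⟨√(n:ℝ), hs⟩, RatFunc.C w, x, y, k, RatFunc.C M, RatFunc.C w₁, RatFunc.C δ,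
    RatFunc.C w₂, RatFunc.C δ⁻¹, a, b, ?_, cast3 hw, hxy, hy, cast3 hw₁, cast3 hw₂, ?_, hab⟩
  · rw [← map_pow]
    have : (⟨√(n:ℝ), hs⟩ : Ralg) ^ 2 = n := by
      apply Subtype.ext
      push_cast
      exact Real.sq_sqrt (Nat.cast_nonneg n)
    rw [this]
    simp
  · rw [← map_mul, mul_inv_cancel₀ hδ, map_one]

end Pool.Agent.H.MP_397872_lc
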