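import Mathlib

namespace Pool.Agent.H.MP_397872_lc

open FirstOrder Language BoundedFormula

/-- `Alt true n φ` (resp. `Alt false n φ`): the formula `φ` is in prenex form with a
quantifier-free matrix, and its quantifiers form `n` alternating nonempty blocks of like
quantifiers, the first (outermost) block being existential (resp. universal). -/
inductive Alt {L : Language} : Bool → ℕ → ∀ {m : ℕ}, L.BoundedFormula Empty m → Prop
  | ex_one {m : ℕ} {φ : L.BoundedFormula Empty (m + 1)} (h : φ.IsQF) : Alt true 1 φ.ex
  | all_one {m : ℕ} {φ : L.BoundedFormula Empty (m + 1)} (h : φ.IsQF) : Alt false 1 φ.all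
  | ex_same {n m : ℕ} {φ : L.BoundedFormula Empty (m + 1)} (h : Alt true n φ) : Alt true n φ.ex
  | all_same {n m : ℕ} {φ : L.BoundedFormula Empty (m + 1)} (h : Alt false n φ) :
      Alt false n φ.all
  | ex_new {n m : ℕ} {φ : L.BoundedFormula Empty (m + 1)} (h : Alt false n φ) :
      Alt true (n + 1) φ.ex
  | all_new {n m : ℕ} {φ : L.BoundedFormula Empty (m + 1)} (h : Alt true n φ) :
      Alt false (n + 1) φ.all

/-- A sentence of the language of rings holds in the field `F`. -/
def Holds (F : Type) [Field F] (φ : Language.ring.Sentence) : Prop :=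
  letI := FirstOrder.Ring.compatibleRingOfRing F
  F ⊨ φ

end Pool.Agent.H.MP_397872_lc
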