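import Mathlib
import Pool.Agent.H.MP_397872_lc.SOS

open Polynomial

namespace Pool.Agent.H.MP_397872_lc

/-- The property used to separate algebraic numbers from some transcendental number. -/
def DyP (c : ℝ) : Prop :=
  ∃ n k : ℕ, 4 * (c * 2 ^ n - (2 * k + 1)) ^ 2 ≤ 1 ∧
    (2 ^ n) ^ 2 ≤ (2 ^ (n * n)) ^ 2 * (c * 2 ^ n - (2 * k + 1)) ^ 2

/-- Irrational positive numbers have arbitrarily long odd dyadic approximations. -/
theorem exists_odd_approx {c : ℝ} (hc : Irrational c) (h0 : 0 < c) (N : ℕ) :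
    ∃ n ≥ N, ∃ k : ℕ, |c * 2 ^ n - (2 * k + 1)| ≤ 1 / 2 := by
  by_contra hcon
  push Not at hcon
  -- the nearest integers are even
  have heven : ∀ n ≥ N, ∃ m : ℤ, round (c * 2 ^ n) = 2 * m := by
    intro n hn
    rcases Int.even_or_odd' (round (c * 2 ^ n)) with ⟨m, hm | hm⟩
    · exact ⟨m, hm⟩
    · exfalso
      have h1 := abs_sub_round (c * 2 ^ n)
      rw [hm] at h1
      have h2 : 0 ≤ m := by
        have h3 : 0 < c * 2 ^ n := by positivity
        have h4 := (abs_le.1 h1).2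
        push_cast at h4
        have h5 : (-1 : ℝ) < (m : ℝ) := by linarith
        have h6 : (-1 : ℤ) < m := by exact_mod_cast h5
        omega
      obtain ⟨k, rfl⟩ := Int.eq_ofNat_of_zero_le h2
      have h3 := hcon n hn k
      push_cast at h1
      exact absurd h1 (not_le.2 h3)
  have hstep : ∀ n ≥ N, round (c * 2 ^ (n + 1)) = 2 * round (c * 2 ^ n) := by
    intro n hn
    obtain ⟨m, hm⟩ := heven (n + 1) (by omega)
    have h1 := abs_le.1 (abs_sub_round (c * 2 ^ (n + 1)))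
    have h2 := abs_le.1 (abs_sub_round (c * 2 ^ n))
    rw [hm] at h1 ⊢
    push_cast at h1
    rw [pow_succ] at h1
    have h3 : (m : ℝ) < (round (c * 2 ^ n) : ℤ) + 1 := by linarith [h1.1, h2.2]
    have h4 : ((round (c * 2 ^ n) : ℤ) : ℝ) < m + 1 := by linarith [h1.2, h2.1]
    have h5 : m < round (c * 2 ^ n) + 1 := by exact_mod_cast h3
    have h6 : round (c * 2 ^ n) < m + 1 := by exact_mod_cast h4
    omega
  have hpow : ∀ i : ℕ, round (c * 2 ^ (N + i)) = 2 ^ i * round (c * 2 ^ N) := by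
    intro i
    induction i with
    | zero => simp
    | succ i ih =>
      rw [← add_assoc, hstep (N + i) (by omega), ih]
      ring
  have hsmall : ∀ i : ℕ, |c * 2 ^ N - (round (c * 2 ^ N) : ℤ)| * 2 ^ i ≤ 1 / 2 := by
    intro i
    have h1 := abs_sub_round (c * 2 ^ (N + i))
    rw [hpow i] at h1
    have h2 : c * 2 ^ (N + i) - ((2 ^ i * round (c * 2 ^ N) : ℤ) : ℝ) =
        (c * 2 ^ N - (round (c * 2 ^ N) : ℤ)) * 2 ^ i := by
      push_cast
      ring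
    rw [h2, abs_mul, abs_of_pos (by positivity : (0:ℝ) < 2 ^ i)] at h1
    exact h1
  have hz : |c * 2 ^ N - (round (c * 2 ^ N) : ℤ)| = 0 := by
    by_contra hne
    have hpos : 0 < |c * 2 ^ N - (round (c * 2 ^ N) : ℤ)| :=
      lt_of_le_of_ne (abs_nonneg _) (Ne.symm hne)
    obtain ⟨i, hi⟩ := pow_unbounded_of_one_lt (1 / |c * 2 ^ N - (round (c * 2 ^ N) : ℤ)|)
      (by norm_num : (1:ℝ) < 2)
    rw [div_lt_iff₀ hpos] at hi
    have := hsmall i
    linarith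
  rw [abs_eq_zero] at hz
  apply hc
  refine ⟨(round (c * 2 ^ N) : ℤ) / 2 ^ N, ?_⟩
  push_cast
  rw [div_eq_iff (by positivity)]
  linarith

theorem dyP_of_algebraic {c : ℝ} (hc : Irrational c) (h0 : 0 < c) (ha : IsAlgebraic ℚ c) :
    DyP c := by
  have ha' : IsAlgebraic ℤ c := (IsFractionRing.isAlgebraic_iff ℤ ℚ ℝ).2 ha
  obtain ⟨f, hf0, hf⟩ := ha'
  have hf' : eval c (map (algebraMap ℤ ℝ) f) = 0 := by
    rw [eval_map_algebraMap]
    exact hf
  obtain ⟨A, hA, hL⟩ := Liouville.exists_pos_real_of_irrational_root hc hf0 hf'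
  obtain ⟨M, hM⟩ := pow_unbounded_of_one_lt A (by norm_num : (1:ℝ) < 2)
  obtain ⟨n, hn, k, hk⟩ := exists_odd_approx hc h0 (max M (f.natDegree + 1))
  have hn1 : M ≤ n := (le_max_left _ _).trans hn
  have hn2 : f.natDegree + 1 ≤ n := (le_max_right _ _).trans hn
  refine ⟨n, k, ?_, ?_⟩
  · have h1 := sq_le_sq' (by linarith [(abs_le.1 hk).1] : -(1/2 : ℝ) ≤ c * 2 ^ n - (2 * k + 1))
      (abs_le.1 hk).2
    nlinarith
  · obtain ⟨b, hb⟩ : ∃ b : ℕ, b + 1 = 2 ^ n := ⟨2 ^ n - 1, Nat.sub_add_cancel Nat.one_le_two_pow⟩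
    have hb' : (b : ℝ) + 1 = 2 ^ n := by exact_mod_cast hb
    have h1 := hL (2 * k + 1) b
    rw [hb'] at h1
    have h2 : |c - ((2 * k + 1 : ℤ) : ℝ) / 2 ^ n| = |c * 2 ^ n - (2 * k + 1)| / 2 ^ n := by
      rw [← abs_of_pos (by positivity : (0:ℝ) < 2 ^ n), ← abs_div,
        abs_of_pos (by positivity : (0:ℝ) < 2 ^ n)]
      congr 1
      push_cast
      field_simp
    rw [h2] at h1
    set x := |c * 2 ^ n - (2 * k + 1)| with hx
    have hx0 : 0 ≤ x := abs_nonneg _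
    have h3 : A ≤ 2 ^ n := hM.le.trans (pow_le_pow_right₀ (by norm_num) hn1)
    have h4 : (2:ℝ) ^ n ≤ 2 ^ (n * n) * x := by
      have h5 : (2:ℝ) ^ n ≤ (2 ^ n) ^ f.natDegree * (x * A) := by
        have h7 : (0:ℝ) < 2 ^ n := by positivity
        have h6 : (2 ^ n) ^ f.natDegree * (x / 2 ^ n * A) =
            (2 ^ n) ^ f.natDegree * (x * A) / 2 ^ n := by ring
        rw [h6, le_div_iff₀ h7] at h1
        linarith
      calc (2:ℝ) ^ n ≤ (2 ^ n) ^ f.natDegree * (x * A) := h5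
        _ ≤ (2 ^ n) ^ f.natDegree * (x * 2 ^ n) := by gcongr
        _ = (2 ^ n) ^ (f.natDegree + 1) * x := by ring
        _ ≤ (2 ^ n) ^ n * x := by
          gcongr
          exact one_le_pow₀ (by norm_num)
        _ = 2 ^ (n * n) * x := by rw [← pow_mul]
    have h5 := pow_le_pow_left₀ (by positivity) h4 2
    rw [mul_pow, hx, sq_abs] at h5
    exact h5

/-- The exponents of the transcendental number. -/
def eSeq : ℕ → ℕ
  | 0 => 0
  | j + 1 => (eSeq j) ^ 2 + 2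

theorem eSeq_step (j : ℕ) : eSeq j + 2 ≤ eSeq (j + 1) := by
  have : eSeq (j + 1) = (eSeq j) ^ 2 + 2 := rfl
  rw [this]
  have := Nat.le_self_pow (n := 2) (by norm_num) (eSeq j)
  omega

theorem le_eSeq (j : ℕ) : j ≤ eSeq j := by
  induction j with
  | zero => exact Nat.zero_le _
  | succ j ih => have := eSeq_step j; omega

theorem eSeq_add (j i : ℕ) : eSeq j + i ≤ eSeq (j + i) := by
  induction i with
  | zero => simp
  | succ i ih =>
    have h := eSeq_step (j + i)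
    rw [show j + (i + 1) = j + i + 1 by ring]
    omega

/-- The tails of the alternating series. -/
noncomputable def tl (j : ℕ) : ℝ := ∑' i, (-1) ^ i * (1 / 2) ^ eSeq (j + i)

theorem term_le (j i : ℕ) : ‖((-1) ^ i * (1 / 2) ^ eSeq (j + i) : ℝ)‖ ≤
    (1 / 2) ^ eSeq j * (1 / 2) ^ i := by
  rw [norm_mul, norm_pow, norm_neg, norm_one, one_pow, one_mul, norm_pow,
    Real.norm_of_nonneg (by norm_num), ← pow_add]
  exact pow_le_pow_of_le_one (by norm_num) (by norm_num) (eSeq_add j i)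

theorem summable_geo (j : ℕ) : Summable fun i : ℕ => ((1 / 2 : ℝ) ^ eSeq j * (1 / 2) ^ i) :=
  (summable_geometric_of_lt_one (by norm_num) (by norm_num)).mul_left _

theorem summable_tl (j : ℕ) : Summable fun i : ℕ => ((-1) ^ i * (1 / 2) ^ eSeq (j + i) : ℝ) :=
  Summable.of_norm_bounded (summable_geo j) (term_le j)

theorem tl_le (j : ℕ) : tl j ≤ 2 * (1 / 2) ^ eSeq j := by
  have h1 : tl j ≤ ∑' i : ℕ, ((1 / 2 : ℝ) ^ eSeq j * (1 / 2) ^ i) := by
    refine (summable_tl j).tsum_le_tsum (fun i => ?_) (summable_geo j)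
    exact (le_abs_self _).trans (term_le j i)
  rw [tsum_mul_left, tsum_geometric_of_lt_one (by norm_num) (by norm_num)] at h1
  linarith

theorem tl_succ (j : ℕ) : tl j = (1 / 2) ^ eSeq j - tl (j + 1) := by
  unfold tl
  rw [(summable_tl j).tsum_eq_zero_add, sub_eq_add_neg, ← tsum_neg]
  simp only [pow_zero, one_mul, add_zero]
  congr 1
  apply tsum_congr
  intro i
  rw [pow_succ, show j + (i + 1) = j + 1 + i by ring]
  ring

theorem tl_pos (j : ℕ) : 0 < tl j := by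
  rw [tl_succ]
  have h1 := tl_le (j + 1)
  have h2 : 2 * (1 / 2 : ℝ) ^ eSeq (j + 1) ≤ (1 / 2) ^ eSeq j * (1 / 2) := by
    have h3 : (1 / 2 : ℝ) ^ eSeq (j + 1) ≤ (1 / 2) ^ (eSeq j + 2) :=
      pow_le_pow_of_le_one (by norm_num) (by norm_num) (eSeq_step j)
    rw [pow_add] at h3
    linarith
  have h4 : (0:ℝ) < (1 / 2) ^ eSeq j := by positivity
  linarith

theorem tl_lt (j : ℕ) : tl j < (1 / 2) ^ eSeq j := by
  rw [tl_succ]
  linarith [tl_pos (j + 1)]

/-- The transcendental number. -/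
noncomputable def c0 : ℝ := tl 0

theorem c0_eq (j : ℕ) : ∃ a : ℤ, c0 * 2 ^ eSeq j = a + (-1) ^ (j + 1) * tl (j + 1) * 2 ^ eSeq j := by
  induction j with
  | zero =>
    refine ⟨1, ?_⟩
    unfold c0
    rw [tl_succ 0]
    simp [eSeq]
    ring
  | succ j ih =>
    obtain ⟨a, ha⟩ := ih
    have hd : eSeq (j + 1) = eSeq j + (eSeq (j + 1) - eSeq j) := by
      have := eSeq_step j
      omega
    set d := eSeq (j + 1) - eSeq j with hd'
    refine ⟨a * 2 ^ d + (-1) ^ (j + 1), ?_⟩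
    rw [tl_succ (j + 1)] at ha
    have h1 : c0 * 2 ^ eSeq (j + 1) = (c0 * 2 ^ eSeq j) * 2 ^ d := by
      rw [hd, pow_add]; ring
    have h2 : (1 / 2 : ℝ) ^ eSeq (j + 1) * 2 ^ eSeq (j + 1) = 1 := by
      rw [← mul_pow]; norm_num
    have h3 : (2:ℝ) ^ eSeq (j + 1) = 2 ^ eSeq j * 2 ^ d := by
      conv_lhs => rw [hd, pow_add]
    rw [h1, ha]
    push_cast
    rw [h3] at h2 ⊢
    linear_combination (-1) ^ (j + 1) * h2

theorem exists_index (n : ℕ) : ∃ j, eSeq j ≤ n ∧ n < eSeq (j + 1) := by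
  induction n with
  | zero => exact ⟨0, le_rfl, by simp [eSeq]⟩
  | succ n ih =>
    obtain ⟨j, h1, h2⟩ := ih
    by_cases h3 : n + 1 < eSeq (j + 1)
    · exact ⟨j, by omega, h3⟩
    · exact ⟨j + 1, by omega, by have := eSeq_step (j + 1); omega⟩

theorem c0_not_dyP : ¬ DyP c0 := by
  rintro ⟨n, k, h1, h2⟩
  obtain ⟨j, hj1, hj2⟩ := exists_index n
  obtain ⟨a, ha⟩ := c0_eq j
  obtain ⟨d, rfl⟩ := Nat.exists_eq_add_of_le hj1
  set T := tl (j + 1) * 2 ^ (eSeq j + d) with hT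
  have hTpos : 0 < T := mul_pos (tl_pos _) (by positivity)
  have hTlt : T < (1 / 2) ^ eSeq (j + 1) * 2 ^ (eSeq j + d) :=
    mul_lt_mul_of_pos_right (tl_lt _) (by positivity)
  have hThalf : T < 1 / 2 := by
    refine hTlt.trans_le ?_
    have h3 : (1 / 2 : ℝ) ^ eSeq (j + 1) ≤ (1 / 2) ^ (eSeq j + d + 1) :=
      pow_le_pow_of_le_one (by norm_num) (by norm_num) hj2
    calc (1 / 2 : ℝ) ^ eSeq (j + 1) * 2 ^ (eSeq j + d)
        ≤ (1 / 2) ^ (eSeq j + d + 1) * 2 ^ (eSeq j + d) := by gcongr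
      _ = 1 / 2 := by
        rw [pow_succ, mul_right_comm, ← mul_pow]
        norm_num
  have hc : c0 * 2 ^ (eSeq j + d) = a * 2 ^ d + (-1) ^ (j + 1) * T := by
    rw [hT, pow_add]
    linear_combination 2 ^ d * ha
  have habs : |(-1 : ℝ) ^ (j + 1) * T| = T := by
    rw [abs_mul, abs_pow, abs_neg, abs_one, one_pow, one_mul, abs_of_pos hTpos]
  have hx : |c0 * 2 ^ (eSeq j + d) - (2 * k + 1)| ≤ 1 / 2 := by
    apply abs_le_of_sq_le_sq _ (by norm_num)
    linarith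
  -- the numerator is determined
  have hu : ((2 * k + 1 : ℤ)) = a * 2 ^ d := by
    have h3 : |((2 * k + 1 : ℤ) : ℝ) - ((a * 2 ^ d : ℤ) : ℝ)| < 1 := by
      have h4 : ((2 * k + 1 : ℤ) : ℝ) - ((a * 2 ^ d : ℤ) : ℝ) =
          -(c0 * 2 ^ (eSeq j + d) - (2 * k + 1)) + (-1) ^ (j + 1) * T := by
        rw [hc]
        push_cast
        ring
      rw [h4]
      refine (abs_add_le _ _).trans_lt ?_
      rw [abs_neg, habs]
      linarith
    have h5 : |(2 * k + 1 : ℤ) - a * 2 ^ d| < 1 := by exact_mod_cast h3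
    have h6 := Int.abs_lt_one_iff.1 h5
    omega
  have hd : d = 0 := by
    by_contra hd
    obtain ⟨d', rfl⟩ := Nat.exists_eq_succ_of_ne_zero hd
    rw [Nat.succ_eq_add_one, pow_succ, ← mul_assoc] at hu
    omega
  subst hd
  rw [pow_zero, mul_one] at hu
  simp only [add_zero] at *
  have h3 : c0 * 2 ^ eSeq j - (2 * k + 1) = (-1) ^ (j + 1) * T := by
    rw [hc]
    have : ((2 * k + 1 : ℤ) : ℝ) = (a : ℝ) := by rw [hu]
    push_cast at this
    rw [this]
    ring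
  rw [h3, ← mul_pow] at h2
  have hsq : ((2:ℝ) ^ eSeq j) ^ 2 ≤ (2 ^ (eSeq j * eSeq j) * T) ^ 2 := by
    refine h2.trans (le_of_eq ?_)
    have hs : ((-1 : ℝ) ^ (j + 1)) ^ 2 = 1 := by
      rw [← pow_mul, mul_comm (j + 1) 2, pow_mul]
      norm_num
    linear_combination (2 ^ (eSeq j * eSeq j) * T) ^ 2 * hs
  have h4 : (2:ℝ) ^ eSeq j ≤ 2 ^ (eSeq j * eSeq j) * T :=
    le_of_sq_le_sq hsq (by positivity)
  have hTlt' : T < (1 / 2) ^ eSeq (j + 1) * 2 ^ eSeq j := hTlt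
  have h5 : (2:ℝ) ^ (eSeq j * eSeq j) * T < 2 ^ (eSeq j * eSeq j) *
      ((1 / 2) ^ eSeq (j + 1) * 2 ^ eSeq j) := by gcongr
  have h6 : (2:ℝ) ^ (eSeq j * eSeq j) * ((1 / 2) ^ eSeq (j + 1) * 2 ^ eSeq j) =
      1 / 4 * 2 ^ eSeq j := by
    have h7 : eSeq (j + 1) = eSeq j * eSeq j + 2 := by
      show (eSeq j) ^ 2 + 2 = _
      ring
    rw [h7, pow_add]
    have h8 : (2:ℝ) ^ (eSeq j * eSeq j) * (1 / 2) ^ (eSeq j * eSeq j) = 1 := by
      rw [← mul_pow]; norm_num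
    linear_combination (1 / 4) * 2 ^ eSeq j * h8
  have h9 : (0:ℝ) < 2 ^ eSeq j := by positivity
  linarith

theorem c0_pos : 0 < c0 := tl_pos 0

theorem c0_irr (a b : ℕ) : ((b : ℝ) + 1) * c0 ≠ a := by
  intro h
  obtain ⟨z, hz⟩ := c0_eq (b + 2)
  set e := eSeq (b + 2) with he
  have hbe : b + 2 ≤ e := le_eSeq _
  set T := tl (b + 2 + 1) * 2 ^ e with hT
  have hTpos : 0 < T := mul_pos (tl_pos _) (by positivity)
  have hTlt : T < (1 / 2) ^ eSeq (b + 2 + 1) * 2 ^ e :=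
    mul_lt_mul_of_pos_right (tl_lt _) (by positivity)
  have hT2 : ((b : ℝ) + 1) * T < 1 := by
    have h1 : (1 / 2 : ℝ) ^ eSeq (b + 2 + 1) * 2 ^ e ≤ (1 / 2) ^ (e * e) * 2 ^ e := by
      gcongr ?_ * _
      apply pow_le_pow_of_le_one (by norm_num) (by norm_num)
      have : eSeq (b + 2 + 1) = e ^ 2 + 2 := rfl
      rw [this]
      nlinarith
    have h2 : (1 / 2 : ℝ) ^ (e * e) * 2 ^ e ≤ (1 / 2) ^ e := by
      have h3 : (1 / 2 : ℝ) ^ (e * e) ≤ (1 / 2) ^ (e + e) := by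
        apply pow_le_pow_of_le_one (by norm_num) (by norm_num)
        nlinarith
      calc (1 / 2 : ℝ) ^ (e * e) * 2 ^ e ≤ (1 / 2) ^ (e + e) * 2 ^ e := by gcongr
        _ = (1 / 2) ^ e := by
          rw [pow_add, mul_assoc, ← mul_pow]; norm_num
    have h4 : ((b : ℝ) + 1) < 2 ^ e := by
      have h5 : b + 1 < 2 ^ e := by
        have := Nat.lt_two_pow_self (n := e)
        omega
      exact_mod_cast h5
    have h6 : (2:ℝ) ^ e * (1 / 2) ^ e = 1 := by rw [← mul_pow]; norm_num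
    have h7 : T < (1 / 2) ^ e := hTlt.trans_le (h1.trans h2)
    have h8 : (0:ℝ) < (1 / 2) ^ e := by positivity
    calc ((b : ℝ) + 1) * T < ((b : ℝ) + 1) * (1 / 2) ^ e := by gcongr
      _ < 2 ^ e * (1 / 2) ^ e := by gcongr
      _ = 1 := h6
  have hT0 : 0 < ((b : ℝ) + 1) * T := by positivity
  have h10 : ((b : ℝ) + 1) * ((-1) ^ (b + 2 + 1) * T) = ((a * 2 ^ e - (b + 1) * z : ℤ) : ℝ) := by
    push_cast
    rw [← h]
    rw [hT]
    linear_combination (-(b : ℝ) - 1) * hz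
  have h11 : |((a * 2 ^ e - (b + 1) * z : ℤ) : ℝ)| < 1 := by
    rw [← h10, abs_mul, abs_mul, abs_pow, abs_neg, abs_one, one_pow, one_mul, abs_of_pos hTpos,
      abs_of_pos (by positivity)]
    exact hT2
  have h12 : |(a * 2 ^ e - (b + 1) * z : ℤ)| < 1 := by exact_mod_cast h11
  rw [Int.abs_lt_one_iff] at h12
  rw [h12] at h10
  have h13 : ((-1 : ℝ)) ^ (b + 2 + 1) ≠ 0 := pow_ne_zero _ (by norm_num)
  have h14 : ((b : ℝ) + 1) * ((-1) ^ (b + 2 + 1) * T) ≠ 0 :=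
    mul_ne_zero (by positivity) (mul_ne_zero h13 hTpos.ne')
  exact h14 (by rw [h10]; norm_num)

end Pool.Agent.H.MP_397872_lc
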