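import Mathlib
import Pool.Agent.H.MP_397872_lc.Def
import Pool.Agent.H.MP_397872_lc.Sound

namespace Pool.Agent.H.MP_397872_lc

open FreeCommRing

theorem ex_natP2 : Ex (fun F _ (v : Fin 2 → F) => NatP (v 0) (v 1)) := by
  let g : Fin 2 → FreeCommRing (Fin 2 ⊕ Fin 12) := fun i => of (Sum.inl i)
  let d : Fin 12 → FreeCommRing (Fin 2 ⊕ Fin 12) := fun i => of (Sum.inr i)
  have h := (((Ex.eq (g 1) (d 0 ^ 2)).and (Ex.eq (d 0 ^ 3 + d 1 ^ 3) 1)).and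
    ((Ex.eq ((g 0 - g 0 ^ 4) * d 3 ^ 2) (d 2 - d 2 ^ 4)).and (Ex.eq (d 3 - g 1) (g 0 * d 4)))).and
    (((Ex.eq (d 5 ^ 3 + d 6 ^ 3) 1).and (Ex.eq (d 7 ^ 3 + d 8 ^ 3) 1)).and
    ((Ex.eq (d 7 * d 9) 1).and
      (Ex.eq (d 5 ^ 2 - d 4 ^ 2 * (d 7 ^ 2 - g 0 ^ 2)) (d 10 ^ 2 + d 11 ^ 2))))
  refine h.ex.congr fun F _ hF v => ?_
  simp only [g, d, map_add, map_sub, map_mul, map_pow, map_one, lift_of, Sum.elim_inl,
    Sum.elim_inr]
  constructor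
  · rintro ⟨s, w, x, y, h, M, w₁, δ, w₂, δ', a, b, h1, h2, h3, h4, h5, h6, h7, h8⟩
    exact ⟨![s, w, x, y, h, M, w₁, δ, w₂, δ', a, b], ⟨⟨h1, h2⟩, ⟨h3, h4⟩⟩, ⟨h5, h6⟩, ⟨h7, h8⟩⟩
  · rintro ⟨z, ⟨⟨h1, h2⟩, ⟨h3, h4⟩⟩, ⟨h5, h6⟩, ⟨h7, h8⟩⟩
    exact ⟨z 0, z 1, z 2, z 3, z 4, z 5, z 6, z 7, z 8, z 9, z 10, z 11, h1, h2, h3, h4, h5, h6,
      h7, h8⟩

theorem ex_natP {α : Type} (i j : α) : Ex (fun F _ (v : α → F) => NatP (v i) (v j)) :=
  (ex_natP2.comp ![i, j]).congr fun F _ hF v => by simp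

theorem NatP.map {F G : Type} [Field F] [Field G] (φ : F →+* G) {t n : F} (h : NatP t n) :
    NatP (φ t) (φ n) := by
  obtain ⟨s, w, x, y, h, M, w₁, δ, w₂, δ', a, b, h1, h2, h3, h4, h5, h6, h7, h8⟩ := h
  refine ⟨φ s, φ w, φ x, φ y, φ h, φ M, φ w₁, φ δ, φ w₂, φ δ', φ a, φ b, ?_, ?_, ?_, ?_, ?_, ?_,
    ?_, ?_⟩
  · rw [h1, map_pow]
  · simpa using congrArg φ h2
  · simpa using congrArg φ h3
  · simpa using congrArg φ h4
  · simpa using congrArg φ h5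
  · simpa using congrArg φ h6
  · simpa using congrArg φ h7
  · simpa using congrArg φ h8

/-! ### From Diophantine sets to polynomial equations -/

theorem poly_to_free {α : Type} (p : Poly α) :
    ∃ q : FreeCommRing α, ∀ v : α → ℕ, p v = lift (fun i => (v i : ℤ)) q := by
  refine Poly.induction (C := fun p => ∃ q : FreeCommRing α, ∀ v : α → ℕ,
    p v = lift (fun i => (v i : ℤ)) q) ?_ ?_ ?_ ?_ p
  · intro i
    exact ⟨of i, fun v => by simp⟩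
  · intro n
    exact ⟨n, fun v => by simp⟩
  · rintro f g ⟨q, hq⟩ ⟨r, hr⟩
    exact ⟨q - r, fun v => by simp [hq, hr]⟩
  · rintro f g ⟨q, hq⟩ ⟨r, hr⟩
    exact ⟨q * r, fun v => by simp [hq, hr]⟩

/-- Only finitely many dummy variables occur. -/
theorem finite_dummies {α β : Type} (q : FreeCommRing (α ⊕ β)) :
    ∃ (γ : Type) (_ : Finite γ) (g : γ → β) (_ : Function.Injective g)
      (r : FreeCommRing (α ⊕ γ)), map (Sum.map id g) r = q := by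
  classical
  obtain ⟨s, hs⟩ := exists_finset_support q
  have h1 := map_subtype_val_restriction (x := q) (s : Set (α ⊕ β)) hs
  refine ⟨{b : β // Sum.inr b ∈ s}, ?_, Subtype.val, Subtype.val_injective,
    map (fun x : (s : Set (α ⊕ β)) => match x with
      | ⟨Sum.inl a, _⟩ => Sum.inl a
      | ⟨Sum.inr b, h⟩ => Sum.inr ⟨b, h⟩) (restriction (s : Set (α ⊕ β)) q), ?_⟩
  · exact Finite.of_injective (fun b : {b : β // Sum.inr b ∈ s} => (⟨Sum.inr b.1, b.2⟩ : s))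
      (fun a b hab => Subtype.ext (Sum.inr_injective (congrArg Subtype.val hab)))
  · conv_rhs => rw [← h1]
    have h2 : ∀ z : FreeCommRing (s : Set (α ⊕ β)), map (Sum.map id Subtype.val)
        (map (fun x : (s : Set (α ⊕ β)) => match x with
          | ⟨Sum.inl a, _⟩ => Sum.inl a
          | ⟨Sum.inr b, h⟩ => (Sum.inr ⟨b, h⟩ : α ⊕ {b : β // Sum.inr b ∈ s})) z) =
        map Subtype.val z := by
      intro z
      refine DFunLike.congr_fun (f := (map (Sum.map id Subtype.val)).comp (map _)) ?_ z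
      apply hom_ext
      rintro ⟨x | x, hx⟩
      · simp
      · simp
    exact h2 _

/-- A Diophantine set becomes an existential condition on tuples of natural numbers of `F`. -/
theorem dioph_ex {α : Type} {S : Set (α → ℕ)} (hS : Dioph S) :
    ∃ (γ : Type) (_ : Finite γ) (r : FreeCommRing (α ⊕ γ)),
      ∀ v : α → ℕ, v ∈ S ↔ ∃ y : γ → ℕ, lift (fun i => ((Sum.elim v y i : ℕ) : ℤ)) r = 0 := by
  obtain ⟨β, p, hp⟩ := hS
  obtain ⟨q, hq⟩ := poly_to_free p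
  obtain ⟨γ, hγ, g, hg, r, hr⟩ := finite_dummies q
  refine ⟨γ, hγ, r, fun v => ?_⟩
  rw [hp]
  have key : ∀ y : β → ℕ, p (Sum.elim v y) =
      lift (fun i => ((Sum.elim v (y ∘ g) i : ℕ) : ℤ)) r := by
    intro y
    rw [hq, ← hr, lift_map]
    congr 2
    funext x
    rcases x with x | x <;> rfl
  constructor
  · rintro ⟨y, hy⟩
    exact ⟨y ∘ g, by rw [← key, hy]⟩
  · rintro ⟨y, hy⟩
    refine ⟨Function.extend g y 0, ?_⟩
    have h1 : Function.extend g y 0 ∘ g = y := funext fun x => hg.extend_apply y 0 x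
    rw [key, h1]
    exact hy

theorem dioph_S : Dioph {v : Fin 3 → ℕ | ∃ k n : ℕ, v 0 = 2 * k + 1 ∧ v 1 = 2 ^ n ∧
    v 2 = 2 ^ (n * n)} := by
  have h : Dioph {w : Fin 3 ⊕ Fin 2 → ℕ | w (Sum.inl 0) = 2 * w (Sum.inr 0) + 1 ∧
      w (Sum.inl 1) = 2 ^ w (Sum.inr 1) ∧ w (Sum.inl 2) = 2 ^ (w (Sum.inr 1) * w (Sum.inr 1))} := by
    have c2 : Dioph.DiophFn (fun _ : Fin 3 ⊕ Fin 2 → ℕ => 2) := Dioph.const_dioph 2
    have c1 : Dioph.DiophFn (fun _ : Fin 3 ⊕ Fin 2 → ℕ => 1) := Dioph.const_dioph 1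
    have pr := fun i : Fin 3 ⊕ Fin 2 => Dioph.proj_dioph i
    exact (Dioph.eq_dioph (pr _) (Dioph.add_dioph (Dioph.mul_dioph c2 (pr _)) c1)).inter
      ((Dioph.eq_dioph (pr _) (Dioph.pow_dioph c2 (pr _))).inter
        (Dioph.eq_dioph (pr _) (Dioph.pow_dioph c2 (Dioph.mul_dioph (pr _) (pr _)))))
  refine (Dioph.ex_dioph h).ext fun v => ?_
  constructor
  · rintro ⟨x, hx⟩
    exact ⟨x 0, x 1, hx⟩
  · rintro ⟨k, n, hx⟩
    exact ⟨![k, n], hx⟩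

end Pool.Agent.H.MP_397872_lc
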