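import Mathlib
import Pool.Agent.H.MP_397872_lc.NatDef
import Pool.Agent.H.MP_397872_lc.Complete
import Pool.Agent.H.MP_397872_lc.Liou

namespace Pool.Agent.H.MP_397872_lc

open FreeCommRing

/-- The matrix of the separating sentence, as a relation (`c = v 0`, `w = v 1`, `t = v 2`). -/
def Rel {γ : Type} (r : FreeCommRing (Fin 3 ⊕ γ)) (F : Type) [Field F] (v : Fin 3 → F) : Prop :=
  ((v 0 ^ 3 + v 1 ^ 3 ≠ 1 ∨ ∃ y : Fin 1 → F, v 2 ^ 3 + y 0 ^ 3 = 1) ∨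
    ((∃ s : Fin 1 → F, v 0 + s 0 ^ 2 = 0) ∨
      ∃ z : Fin 2 → F, (NatP (v 2) (z 0) ∧ NatP (v 2) (z 1)) ∧ (z 1 + 1) * v 0 = z 0)) ∨
    ∃ z : Fin 5 ⊕ γ → F, ((NatP (v 2) (z (Sum.inl 0)) ∧ NatP (v 2) (z (Sum.inl 1))) ∧
      (NatP (v 2) (z (Sum.inl 2)) ∧ ∀ i : γ, NatP (v 2) (z (Sum.inr i)))) ∧
      (lift (Sum.elim ![z (Sum.inl 0), z (Sum.inl 1), z (Sum.inl 2)] (z ∘ Sum.inr)) r = 0 ∧
      (1 - 4 * (v 0 * z (Sum.inl 1) - z (Sum.inl 0)) ^ 2 = z (Sum.inl 3) ^ 2 ∧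
      z (Sum.inl 2) ^ 2 * (v 0 * z (Sum.inl 1) - z (Sum.inl 0)) ^ 2 - z (Sum.inl 1) ^ 2 =
        z (Sum.inl 4) ^ 2))

theorem ex_Rel {γ : Type} [Finite γ] (r : FreeCommRing (Fin 3 ⊕ γ)) :
    Ex (fun F _ v => Rel r F v) := by
  -- first disjunct
  have h1 : Ex (fun F _ (v : Fin 3 → F) => v 0 ^ 3 + v 1 ^ 3 ≠ 1) :=
    (Ex.ne (of (0 : Fin 3) ^ 3 + of 1 ^ 3) 1).congr fun F _ hF v => by simp
  have h2 : Ex (fun F _ (v : Fin 3 → F) => ∃ y : Fin 1 → F, v 2 ^ 3 + y 0 ^ 3 = 1) :=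
    (Ex.eq (of (Sum.inl 2 : Fin 3 ⊕ Fin 1) ^ 3 + of (Sum.inr 0) ^ 3) 1).ex.congr
      fun F _ hF v => by simp
  have h3 : Ex (fun F _ (v : Fin 3 → F) => ∃ s : Fin 1 → F, v 0 + s 0 ^ 2 = 0) :=
    (Ex.eq (of (Sum.inl 0 : Fin 3 ⊕ Fin 1) + of (Sum.inr 0) ^ 2) 0).ex.congr
      fun F _ hF v => by simp
  have h4 : Ex (fun F _ (v : Fin 3 → F) => ∃ z : Fin 2 → F,
      (NatP (v 2) (z 0) ∧ NatP (v 2) (z 1)) ∧ (z 1 + 1) * v 0 = z 0) :=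
    (((ex_natP (Sum.inl 2 : Fin 3 ⊕ Fin 2) (Sum.inr 0)).and (ex_natP (Sum.inl 2) (Sum.inr 1))).and
      (Ex.eq ((of (Sum.inr 1) + 1) * of (Sum.inl 0)) (of (Sum.inr 0)))).ex.congr
      fun F _ hF v => by simp
  have h5 : Ex (fun F _ (v : Fin 3 → F) =>
      ∃ z : Fin 5 ⊕ γ → F, ((NatP (v 2) (z (Sum.inl 0)) ∧ NatP (v 2) (z (Sum.inl 1))) ∧
      (NatP (v 2) (z (Sum.inl 2)) ∧ ∀ i : γ, NatP (v 2) (z (Sum.inr i)))) ∧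
      (lift (Sum.elim ![z (Sum.inl 0), z (Sum.inl 1), z (Sum.inl 2)] (z ∘ Sum.inr)) r = 0 ∧
      (1 - 4 * (v 0 * z (Sum.inl 1) - z (Sum.inl 0)) ^ 2 = z (Sum.inl 3) ^ 2 ∧
      z (Sum.inl 2) ^ 2 * (v 0 * z (Sum.inl 1) - z (Sum.inl 0)) ^ 2 - z (Sum.inl 1) ^ 2 =
        z (Sum.inl 4) ^ 2))) := by
    let V : Fin 3 → Fin 3 ⊕ (Fin 5 ⊕ γ) := Sum.inl
    let Z : Fin 5 → Fin 3 ⊕ (Fin 5 ⊕ γ) := fun i => Sum.inr (Sum.inl i)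
    have a1 := ((ex_natP (V 2) (Z 0)).and (ex_natP (V 2) (Z 1))).and
      ((ex_natP (V 2) (Z 2)).and
        (Ex.forall _ (fun i : γ => ex_natP (V 2) (Sum.inr (Sum.inr i)))))
    have a2 := Ex.eq (FreeCommRing.map (Sum.elim ![Z 0, Z 1, Z 2] (Sum.inr ∘ Sum.inr)) r) 0
    have a3 := Ex.eq (1 - 4 * (of (V 0) * of (Z 1) - of (Z 0)) ^ 2) (of (Z 3) ^ 2)
    have a4 := Ex.eq (of (Z 2) ^ 2 * (of (V 0) * of (Z 1) - of (Z 0)) ^ 2 - of (Z 1) ^ 2)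
      (of (Z 4) ^ 2)
    refine (a1.and (a2.and (a3.and a4))).ex.congr fun F _ hF v => ?_
    apply exists_congr
    intro z
    have e1 : lift (Sum.elim v z)
        (FreeCommRing.map (Sum.elim ![Z 0, Z 1, Z 2] (Sum.inr ∘ Sum.inr)) r) =
        lift (Sum.elim ![z (Sum.inl 0), z (Sum.inl 1), z (Sum.inl 2)] (z ∘ Sum.inr)) r := by
      rw [lift_map]
      congr 2
      funext x
      rcases x with x | x
      · fin_cases x <;> rfl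
      · rfl
    rw [e1]
    simp only [V, Z, map_sub, map_mul, map_pow, map_one, map_ofNat, map_zero, lift_of,
      Sum.elim_inl, Sum.elim_inr]
  exact ((h1.or h2).or (h3.or h4)).or h5

end Pool.Agent.H.MP_397872_lc
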