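import Mathlib
import Pool.Agent.H.MP_397872_lc.Sep

namespace Pool.Agent.H.MP_397872_lc

open Polynomial
open scoped nonZeroDivisors

theorem fr_real : FR ℝ := fun a b h => by nlinarith [sq_nonneg a, sq_nonneg b]

theorem fr_Ralg : FR Ralg := fun a b h => by
  apply Subtype.ext
  have h1 := congrArg (Subtype.val : Ralg → ℝ) h
  push_cast at h1
  exact fr_real _ _ h1

theorem fr_ratFunc {K : Type} [Field K] [Infinite K] (hK : FR K) : FR (RatFunc K) := by
  intro a b h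
  set φ := algebraMap K[X] (RatFunc K) with hφ
  have hφi : Function.Injective φ := RatFunc.algebraMap_injective K
  have den : ∀ x : RatFunc K, φ x.num = x * φ x.denom := by
    intro x
    rw [← div_eq_iff (RatFunc.algebraMap_ne_zero x.denom_ne_zero), RatFunc.num_div_denom]
  have h1 : (a.num * b.denom) ^ 2 + (b.num * a.denom) ^ 2 = 0 := by
    apply hφi
    simp only [map_add, map_mul, map_pow, den a, den b, map_zero]
    linear_combination (φ a.denom * φ b.denom) ^ 2 * h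
  have h2 : a.num * b.denom = 0 := by
    apply Polynomial.funext
    intro x
    rw [eval_zero]
    have h3 := congrArg (eval x) h1
    rw [eval_add, eval_pow, eval_pow, eval_zero] at h3
    exact hK _ _ h3
  have h3 := (mul_eq_zero.1 h2).resolve_right b.denom_ne_zero
  exact RatFunc.num_eq_zero_iff.1 h3

/-- Substitution of a nonconstant element. -/
theorem exists_subst {K : Type} [Field K] {t : RatFunc K} (ht : ¬ ∃ c, t = RatFunc.C c) :
    ∃ φ : RatFunc K →+* RatFunc K, φ RatFunc.X = t := by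
  have h1 : Transcendental K t := RatFunc.transcendental_of_ne_C t ht
  have h2 : Function.Injective (aeval (R := K) t) := transcendental_iff_injective.1 h1
  have h3 : K[X]⁰ ≤ (RatFunc K)⁰.comap ((aeval (R := K) t : K[X] →ₐ[K] RatFunc K) : K[X] →+* RatFunc K) := by
    intro p hp
    rw [Submonoid.mem_comap]
    apply mem_nonZeroDivisors_of_ne_zero
    intro h0
    have : p = 0 := h2 (by simpa using h0)
    exact nonZeroDivisors.ne_zero hp this
  refine ⟨RatFunc.liftRingHom _ h3, ?_⟩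
  rw [RatFunc.liftRingHom_X]
  simp

theorem natP_of_nonconst {t : RatFunc Ralg} (ht : ¬ ∃ c, t = RatFunc.C c) (n : ℕ) :
    NatP t (n : RatFunc Ralg) := by
  obtain ⟨φ, hφ⟩ := exists_subst ht
  have := (natP_complete n).map φ
  rw [hφ, map_natCast] at this
  exact this

theorem exists_sq {a : Ralg} (h : 0 ≤ (a : ℝ)) : ∃ s : Ralg, a = s ^ 2 := by
  refine ⟨⟨√(a:ℝ), sqrt_mem a.2 h⟩, ?_⟩
  apply Subtype.ext
  push_cast
  rw [Real.sq_sqrt h]

section
variable {γ : Type} {r : FreeCommRing (Fin 3 ⊕ γ)}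
  (hr : ∀ v : Fin 3 → ℕ, (∃ k n : ℕ, v 0 = 2 * k + 1 ∧ v 1 = 2 ^ n ∧ v 2 = 2 ^ (n * n)) ↔
    ∃ y : γ → ℕ, FreeCommRing.lift (fun i => ((Sum.elim v y i : ℕ) : ℤ)) r = 0)
include hr

theorem rel_complete (v : Fin 3 → RatFunc Ralg) : Rel r (RatFunc Ralg) v := by
  by_cases h1 : v 0 ^ 3 + v 1 ^ 3 = 1
  swap
  · exact Or.inl (Or.inl (Or.inl h1))
  obtain ⟨c, hc⟩ := fermat_const h1
  by_cases ht : ∃ a, v 2 = RatFunc.C a
  · obtain ⟨a, ha⟩ := ht
    obtain ⟨b, hb⟩ := fermat_partner a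
    refine Or.inl (Or.inl (Or.inr ⟨fun _ => RatFunc.C b, ?_⟩))
    rw [ha, ← map_pow, ← map_pow, ← map_add, hb, map_one]
  have hN := natP_of_nonconst ht
  by_cases h0 : (c : ℝ) ≤ 0
  · obtain ⟨s, hs⟩ := exists_sq (a := -c) (by push_cast; linarith)
    refine Or.inl (Or.inr (Or.inl ⟨fun _ => RatFunc.C s, ?_⟩))
    rw [hc, ← map_pow, ← hs, ← map_add, add_neg_cancel, map_zero]
  push Not at h0
  by_cases hq : Irrational (c : ℝ)
  swap
  · -- rational
    rw [Irrational, not_not] at hq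
    obtain ⟨q, hq⟩ := hq
    have hq0 : 0 < q := by
      rw [← hq] at h0
      exact_mod_cast h0
    obtain ⟨a, ha⟩ : ∃ a : ℕ, q.num = a := Int.eq_ofNat_of_zero_le (Rat.num_pos.2 hq0).le
    obtain ⟨b, hb⟩ : ∃ b : ℕ, q.den = b + 1 := ⟨q.den - 1, by have := q.den_pos; omega⟩
    refine Or.inl (Or.inr (Or.inr ⟨![(a : RatFunc Ralg), (b : RatFunc Ralg)],
      ⟨hN a, hN b⟩, ?_⟩))
    show ((b : RatFunc Ralg) + 1) * v 0 = (a : RatFunc Ralg)
    have e1 : ((b : Ralg) + 1) * c = a := by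
      apply Subtype.ext
      push_cast
      rw [← hq]
      have h2 : (q.den : ℚ) * q = q.num := Rat.den_mul_eq_num q
      rw [ha, hb] at h2
      have h3 : (((b + 1 : ℕ) : ℚ) * q : ℚ) = ((a : ℤ) : ℚ) := h2
      have h4 := congrArg (fun x : ℚ => (x : ℝ)) h3
      push_cast at h4
      exact h4
    have e2 := congrArg (RatFunc.C : Ralg →+* RatFunc Ralg) e1
    rw [map_mul, map_add, map_one, map_natCast, map_natCast] at e2
    rw [hc]
    exact e2
  obtain ⟨n, k, hn1, hn2⟩ := dyP_of_algebraic hq h0 (mem_Ralg.1 c.2)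
  obtain ⟨y, hy⟩ := (hr ![2 * k + 1, 2 ^ n, 2 ^ (n * n)]).1 ⟨k, n, rfl, rfl, rfl⟩
  obtain ⟨s₁, hs₁⟩ := exists_sq (a := 1 - 4 * (c * ((2 ^ n : ℕ) : Ralg) - ((2 * k + 1 : ℕ) : Ralg)) ^ 2)
    (by
      push_cast
      rw [show ((4 : Ralg) : ℝ) = 4 from map_ofNat (algebraMap Ralg ℝ) 4,
        show ((2 : Ralg) : ℝ) = 2 from map_ofNat (algebraMap Ralg ℝ) 2]
      linarith)
  obtain ⟨s₂, hs₂⟩ := exists_sq (a := ((2 ^ (n * n) : ℕ) : Ralg) ^ 2 *
      (c * ((2 ^ n : ℕ) : Ralg) - ((2 * k + 1 : ℕ) : Ralg)) ^ 2 - ((2 ^ n : ℕ) : Ralg) ^ 2)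
    (by
      push_cast
      rw [show ((2 : Ralg) : ℝ) = 2 from map_ofNat (algebraMap Ralg ℝ) 2]
      linarith)
  refine Or.inr ⟨Sum.elim ![((2 * k + 1 : ℕ) : RatFunc Ralg), ((2 ^ n : ℕ) : RatFunc Ralg),
    ((2 ^ (n * n) : ℕ) : RatFunc Ralg), RatFunc.C s₁, RatFunc.C s₂] (fun i => (y i : RatFunc Ralg)),
    ⟨⟨hN _, hN _⟩, hN _, fun i => hN _⟩, ?_, ?_, ?_⟩
  · have h2 := congrArg (Int.castRingHom (RatFunc Ralg)) hy
    rw [map_lift, map_zero] at h2
    rw [← h2]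
    congr 2
    funext x
    rcases x with x | x
    · fin_cases x <;> simp
    · simp
  · show 1 - 4 * (v 0 * ((2 ^ n : ℕ) : RatFunc Ralg) - ((2 * k + 1 : ℕ) : RatFunc Ralg)) ^ 2 =
      (RatFunc.C s₁) ^ 2
    rw [← map_pow, ← hs₁, hc]
    simp only [map_sub, map_mul, map_pow, map_one, map_natCast, map_ofNat]
  · show ((2 ^ (n * n) : ℕ) : RatFunc Ralg) ^ 2 * (v 0 * ((2 ^ n : ℕ) : RatFunc Ralg) -
      ((2 * k + 1 : ℕ) : RatFunc Ralg)) ^ 2 - ((2 ^ n : ℕ) : RatFunc Ralg) ^ 2 = (RatFunc.C s₂) ^ 2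
    rw [← map_pow, ← hs₂, hc]
    simp only [map_sub, map_mul, map_pow, map_natCast]

omit hr in
/-- A constant that is a square is nonnegative. -/
theorem nonneg_of_sq {a : ℝ} {s : RatFunc ℝ} (h : RatFunc.C a = s ^ 2) : 0 ≤ a := by
  by_contra hneg
  push Not at hneg
  have h1 : (RatFunc.C (√(-a)) : RatFunc ℝ) ^ 2 + s ^ 2 = 0 := by
    rw [← map_pow, Real.sq_sqrt (by linarith), ← h, ← map_add, neg_add_cancel, map_zero]
  have h2 := fr_ratFunc fr_real _ _ h1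
  have h3 : √(-a) = 0 := by
    have := (map_eq_zero (RatFunc.C : ℝ →+* RatFunc ℝ)).1 h2
    exact this
  rw [Real.sqrt_eq_zero'] at h3
  linarith

theorem rel_fails : ∃ v : Fin 3 → RatFunc ℝ, ¬ Rel r (RatFunc ℝ) v := by
  obtain ⟨w0, hw0⟩ := exists_cube (1 - c0 ^ 3)
  refine ⟨![RatFunc.C c0, RatFunc.C w0, RatFunc.X], ?_⟩
  rintro (((h | ⟨y, hy⟩) | (⟨s, hs⟩ | ⟨z, ⟨h1, h2⟩, h3⟩)) | ⟨z, ⟨⟨h1, h2⟩, h3, h4⟩, h5, h6, h7⟩)
  · apply h
    show (RatFunc.C c0 : RatFunc ℝ) ^ 3 + (RatFunc.C w0) ^ 3 = 1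
    rw [← map_pow, ← map_pow, ← map_add, hw0]
    simp
  · obtain ⟨a, ha⟩ := fermat_const hy
    have ha' : (RatFunc.X : RatFunc ℝ) = RatFunc.C a := ha
    have h1 : HasVal (RatFunc.X : RatFunc ℝ) a := by rw [ha']; exact hasVal_C a
    have h2 : (0:ℝ) = a := hasVal_X.unique h1
    rw [← h2, map_zero] at ha'
    exact RatFunc.X_ne_zero ha'
  · have h1 : RatFunc.C (-c0) = s 0 ^ 2 := by
      rw [map_neg]
      have hs' : (RatFunc.C c0 : RatFunc ℝ) + s 0 ^ 2 = 0 := hs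
      linear_combination -hs'
    have := nonneg_of_sq h1
    linarith [c0_pos]
  · obtain ⟨a, ha⟩ := natP_sound h1
    obtain ⟨b, hb⟩ := natP_sound h2
    have h3' : (z 1 + 1) * (RatFunc.C c0 : RatFunc ℝ) = z 0 := h3
    rw [ha, hb] at h3'
    apply c0_irr a b
    apply RatFunc.C_injective
    rw [map_mul, map_add, map_one, map_natCast, map_natCast]
    exact h3'
  · obtain ⟨u, hu⟩ := natP_sound h1
    obtain ⟨m, hm⟩ := natP_sound h2
    obtain ⟨p, hp⟩ := natP_sound h3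
    choose y hy using fun i => natP_sound (h4 i)
    have h5' : FreeCommRing.lift (fun i => ((Sum.elim ![u, m, p] y i : ℕ) : ℤ)) r = 0 := by
      have hinj : Function.Injective (Int.castRingHom (RatFunc ℝ)) := Int.cast_injective
      apply hinj
      rw [map_lift, map_zero, ← h5]
      congr 2
      funext x
      rcases x with x | x
      · fin_cases x
        · simp [hu]
        · simp [hm]
        · simp [hp]
      · simp [hy]
    obtain ⟨k, n, e1, e2, e3⟩ := (hr ![u, m, p]).2 ⟨y, h5'⟩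
    have e1' : u = 2 * k + 1 := e1
    have e2' : m = 2 ^ n := e2
    have e3' : p = 2 ^ (n * n) := e3
    have h6' : 1 - 4 * ((RatFunc.C c0 : RatFunc ℝ) * z (Sum.inl 1) - z (Sum.inl 0)) ^ 2 =
      z (Sum.inl 3) ^ 2 := h6
    have h7' : z (Sum.inl 2) ^ 2 * ((RatFunc.C c0 : RatFunc ℝ) * z (Sum.inl 1) - z (Sum.inl 0)) ^ 2 -
      z (Sum.inl 1) ^ 2 = z (Sum.inl 4) ^ 2 := h7
    rw [hu, hm] at h6'
    rw [hu, hm, hp] at h7'
    have h8 : (RatFunc.C (1 - 4 * (c0 * m - u) ^ 2) : RatFunc ℝ) = z (Sum.inl 3) ^ 2 := by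
      rw [← h6']
      simp only [map_sub, map_mul, map_pow, map_one, map_natCast, map_ofNat]
    have h9 : (RatFunc.C ((p : ℝ) ^ 2 * (c0 * m - u) ^ 2 - (m : ℝ) ^ 2) : RatFunc ℝ) =
        z (Sum.inl 4) ^ 2 := by
      rw [← h7']
      simp only [map_sub, map_mul, map_pow, map_natCast]
    have h10 := nonneg_of_sq h8
    have h11 := nonneg_of_sq h9
    apply c0_not_dyP
    refine ⟨n, k, ?_, ?_⟩
    · rw [e1', e2'] at h10
      push_cast at h10
      linarith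
    · rw [e1', e2', e3'] at h11
      push_cast at h11
      linarith

end

/-- Main algebraic statement. -/
theorem exists_sep : ∃ R : ∀ (F : Type) [Field F], (Fin 3 → F) → Prop, Ex R ∧
    (∀ v, R (RatFunc Ralg) v) ∧ ∃ v, ¬ R (RatFunc ℝ) v := by
  obtain ⟨γ, hγ, r, hr⟩ := dioph_ex dioph_S
  exact ⟨fun F _ v => Rel r F v, ex_Rel r, rel_complete hr, rel_fails hr⟩

end Pool.Agent.H.MP_397872_lc
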