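import Mathlib
import Pool.Agent.H.MP_397872_lc.Sep2
import Pool.Agent.H.MP_397872_lc.Sentences

namespace Pool.Agent.H.MP_397872_lc

open FirstOrder Language BoundedFormula

section
variable {L : Language}

/-- Prefix `n` universal quantifiers. -/
def allN {k : ℕ} : (n : ℕ) → L.BoundedFormula Empty (k + n) → L.BoundedFormula Empty k
  | 0, φ => φ
  | n + 1, φ => allN n φ.all

/-- Prefix `n` existential quantifiers. -/
def exN {k : ℕ} : (n : ℕ) → L.BoundedFormula Empty (k + n) → L.BoundedFormula Empty k
  | 0, φ => φ
  | n + 1, φ => exN n φ.ex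

theorem append_snoc' {M : Type} {k n : ℕ} (xs : Fin k → M) (ys : Fin n → M) (a : M) :
    Fin.append xs (Fin.snoc ys a : Fin (n + 1) → M) =
      (Fin.snoc (Fin.append xs ys) a : Fin (k + n + 1) → M) := by
  funext i
  refine Fin.lastCases ?_ (fun j => ?_) i
  · have h1 : (Fin.snoc (Fin.append xs ys) a : Fin (k + n + 1) → M) (Fin.last (k + n)) = a :=
      Fin.snoc_last _ _
    refine Eq.trans ?_ h1.symm
    refine (Fin.append_right xs (Fin.snoc ys a : Fin (n + 1) → M) (Fin.last n)).trans ?_
    exact Fin.snoc_last _ _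
  · rw [Fin.snoc_castSucc]
    refine Fin.addCases (fun l => ?_) (fun l => ?_) j
    · rw [show (Fin.castAdd n l).castSucc = Fin.castAdd (n + 1) l from rfl, Fin.append_left,
        Fin.append_left]
    · rw [show (Fin.natAdd k l).castSucc = Fin.natAdd k l.castSucc from rfl, Fin.append_right,
        Fin.append_right, Fin.snoc_castSucc]

theorem realize_allN {M : Type} [L.Structure M] {k : ℕ} (v : Empty → M) (xs : Fin k → M) (n : ℕ)
    (φ : L.BoundedFormula Empty (k + n)) :
    (allN n φ).Realize v xs ↔ ∀ ys : Fin n → M, φ.Realize v (Fin.append xs ys) := by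
  induction n with
  | zero =>
    constructor
    · intro h ys
      rw [Subsingleton.elim ys Fin.elim0, Fin.append_elim0]
      exact h
    · intro h
      have := h Fin.elim0
      rw [Fin.append_elim0] at this
      exact this
  | succ n ih =>
    rw [allN, ih]
    constructor
    · intro h ys
      have := h (Fin.init ys) (ys (Fin.last n))
      rw [← append_snoc', Fin.snoc_init_self] at this
      exact this
    · intro h ys a
      have := h (Fin.snoc ys a)
      rw [append_snoc'] at this
      exact this

theorem realize_exN {M : Type} [L.Structure M] {k : ℕ} (v : Empty → M) (xs : Fin k → M) (n : ℕ)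
    (φ : L.BoundedFormula Empty (k + n)) :
    (exN n φ).Realize v xs ↔ ∃ ys : Fin n → M, φ.Realize v (Fin.append xs ys) := by
  induction n with
  | zero =>
    constructor
    · intro h
      refine ⟨Fin.elim0, ?_⟩
      rw [Fin.append_elim0]
      exact h
    · rintro ⟨ys, h⟩
      rw [Subsingleton.elim ys Fin.elim0, Fin.append_elim0] at h
      exact h
  | succ n ih =>
    rw [exN, ih]
    constructor
    · rintro ⟨ys, h⟩
      rw [realize_ex] at h
      obtain ⟨a, h⟩ := h
      refine ⟨Fin.snoc ys a, ?_⟩
      rw [append_snoc']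
      exact h
    · rintro ⟨ys, h⟩
      refine ⟨Fin.init ys, ?_⟩
      rw [realize_ex]
      refine ⟨ys (Fin.last n), ?_⟩
      rw [← append_snoc', Fin.snoc_init_self]
      exact h

theorem alt_allN {k m : ℕ} (n : ℕ) (φ : L.BoundedFormula Empty (k + n)) (h : Alt false m φ) :
    Alt false m (allN n φ) := by
  induction n with
  | zero => exact h
  | succ n ih => exact ih _ (Alt.all_same h)

theorem alt_exN {k m : ℕ} (n : ℕ) (φ : L.BoundedFormula Empty (k + n)) (h : Alt true m φ) :
    Alt true m (exN n φ) := by
  induction n with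
  | zero => exact h
  | succ n ih => exact ih _ (Alt.ex_same h)

end

/-- The separating sentence. -/
theorem exists_sigma2 : ∃ φ : Language.ring.Sentence, Alt true 2 φ ∧
    Holds (RatFunc ℝ) φ ∧ ¬ Holds (RatFunc Ralg) φ := by
  obtain ⟨R, ⟨β, hβ, P, hP⟩, hR1, hR2⟩ := exists_sep
  obtain ⟨n, ⟨e⟩⟩ := Finite.exists_equiv_fin β
  -- variables
  let σ : Fin 3 ⊕ β → Empty ⊕ Fin (0 + 3 + (n + 1)) := fun x => Sum.inr (match x with
    | Sum.inl i => Fin.castAdd (n + 1) (Fin.natAdd 0 i)
    | Sum.inr b => Fin.natAdd (0 + 3) (Fin.castSucc (e b)))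
  let τ : Language.ring.Term (Empty ⊕ Fin (0 + 3 + (n + 1))) :=
    FirstOrder.Ring.termOfFreeCommRing (FreeCommRing.map σ P)
  let θ : Language.ring.BoundedFormula Empty (0 + 3 + (n + 1)) := (τ =' 0).not
  have hθ : θ.IsQF := (IsAtomic.equal _ _).isQF.not
  have key : ∀ (F : Type) [Field F], FR F →
      (Holds F (exN 3 (allN (n + 1) θ)) ↔ ∃ v : Fin 3 → F, ¬ R F v) := by
    intro F _ hF
    let _ := FirstOrder.Ring.compatibleRingOfRing F
    show (exN 3 (allN (n + 1) θ)).Realize _ _ ↔ _
    rw [realize_exN]
    apply exists_congr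
    intro v
    rw [realize_allN, hP F hF v]
    push Not
    have e1 : ∀ ys : Fin (n + 1) → F, θ.Realize (default : Empty → F)
        (Fin.append (Fin.append (default : Fin 0 → F) v) ys) ↔
        FreeCommRing.lift (Sum.elim v (fun b => ys (Fin.castSucc (e b)))) P ≠ 0 := by
      intro ys
      show (¬ (τ =' 0).Realize _ _) ↔ _
      rw [not_iff_not]
      show (τ.realize _ = (0 : Language.ring.Term _).realize _) ↔ _
      rw [FirstOrder.Ring.realize_termOfFreeCommRing, FirstOrder.Ring.realize_zero, lift_map]
      have e2 : Sum.elim (default : Empty → F)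
          (Fin.append (Fin.append (default : Fin 0 → F) v) ys) ∘ σ =
          Sum.elim v (fun b => ys (Fin.castSucc (e b))) := by
        funext x
        rcases x with i | b
        · show Fin.append (Fin.append (default : Fin 0 → F) v) ys
            (Fin.castAdd (n + 1) (Fin.natAdd 0 i)) = v i
          rw [Fin.append_left, Fin.append_right]
        · show Fin.append (Fin.append (default : Fin 0 → F) v) ys
            (Fin.natAdd (0 + 3) (Fin.castSucc (e b))) = ys (Fin.castSucc (e b))
          rw [Fin.append_right]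
      rw [e2]
    constructor
    · intro h y
      have := (e1 (Fin.snoc (fun i => y (e.symm i)) 0)).1 (h _)
      simpa using this
    · intro h ys
      exact (e1 ys).2 (h _)
  refine ⟨exN 3 (allN (n + 1) θ), ?_, ?_, ?_⟩
  · have h1 : Alt false 1 (allN (n + 1) θ) := alt_allN (L := Language.ring) n _ (Alt.all_one hθ)
    exact alt_exN (L := Language.ring) 2 _ (Alt.ex_new h1)
  · exact (key _ (fr_ratFunc fr_real)).2 hR2
  · intro h
    obtain ⟨v, hv⟩ := (key _ (fr_ratFunc fr_Ralg)).1 h
    exact hv (hR1 v)

end Pool.Agent.H.MP_397872_lc
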