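import Mathlib
import Pool.Agent.H.MP_397872_lc.FO
import Pool.Agent.H.MP_397872_lc.AL2

namespace Pool.Agent.H.MP_397872_lc

open FirstOrder Language BoundedFormula

/-- Value of a term in a field. -/
def TermVal (F : Type) [Field F] {m : ℕ} (t : Language.ring.Term (Empty ⊕ Fin m))
    (y : Fin m → F) : F :=
  letI := FirstOrder.Ring.compatibleRingOfRing F
  t.realize (Sum.elim (default : Empty → F) y)

/-- Truth of a formula at a tuple of a field. -/
def HoldsAt (F : Type) [Field F] {m : ℕ} (φ : Language.ring.BoundedFormula Empty m)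
    (y : Fin m → F) : Prop :=
  letI := FirstOrder.Ring.compatibleRingOfRing F
  φ.Realize (default : Empty → F) y

theorem term_poly {m : ℕ} (t : Language.ring.Term (Empty ⊕ Fin m)) :
    ∃ p : FreeCommRing (Fin m), ∀ (F : Type) [Field F] (y : Fin m → F),
      TermVal F t y = FreeCommRing.lift y p := by
  induction t with
  | var x =>
    rcases x with x | x
    · exact x.elim
    · exact ⟨FreeCommRing.of x, fun F _ y => by simp [TermVal]⟩
  | func f ts ih =>
    choose p hp using ih
    cases f with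
    | add =>
      refine ⟨p 0 + p 1, fun F _ y => ?_⟩
      have h0 := hp 0 F y
      have h1 := hp 1 F y
      let _ := FirstOrder.Ring.compatibleRingOfRing F
      rw [map_add, ← h0, ← h1]
      exact FirstOrder.Ring.CompatibleRing.funMap_add _
    | mul =>
      refine ⟨p 0 * p 1, fun F _ y => ?_⟩
      have h0 := hp 0 F y
      have h1 := hp 1 F y
      let _ := FirstOrder.Ring.compatibleRingOfRing F
      rw [map_mul, ← h0, ← h1]
      exact FirstOrder.Ring.CompatibleRing.funMap_mul _
    | neg =>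
      refine ⟨- p 0, fun F _ y => ?_⟩
      have h0 := hp 0 F y
      let _ := FirstOrder.Ring.compatibleRingOfRing F
      rw [map_neg, ← h0]
      exact FirstOrder.Ring.CompatibleRing.funMap_neg _
    | zero =>
      refine ⟨0, fun F _ y => ?_⟩
      let _ := FirstOrder.Ring.compatibleRingOfRing F
      rw [map_zero]
      exact FirstOrder.Ring.CompatibleRing.funMap_zero _
    | one =>
      refine ⟨1, fun F _ y => ?_⟩
      let _ := FirstOrder.Ring.compatibleRingOfRing F
      rw [map_one]
      exact FirstOrder.Ring.CompatibleRing.funMap_one _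

theorem qf_transfer (F₁ : Type) [Field F₁] {m : ℕ} {θ : Language.ring.BoundedFormula Empty m}
    (hθ : θ.IsQF) (y : Fin m → F₁) :
    ∃ h : FreeCommRing (Fin m), FreeCommRing.lift y h ≠ 0 ∧
      ∀ (F₂ : Type) [Field F₂] (z : Fin m → F₂),
        (∀ p : FreeCommRing (Fin m), FreeCommRing.lift y p = 0 → FreeCommRing.lift z p = 0) →
        FreeCommRing.lift z h ≠ 0 → (HoldsAt F₁ θ y ↔ HoldsAt F₂ θ z) := by
  classical
  induction hθ with
  | falsum => exact ⟨1, by simp, fun F₂ _ z _ _ => Iff.rfl⟩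
  | of_isAtomic h =>
    rcases h with ⟨t₁, t₂⟩ | ⟨R, ts⟩
    · obtain ⟨p₁, hp₁⟩ := term_poly t₁
      obtain ⟨p₂, hp₂⟩ := term_poly t₂
      have key : ∀ (F : Type) [Field F] (x : Fin m → F), HoldsAt F (t₁.bdEqual t₂) x ↔
          FreeCommRing.lift x (p₁ - p₂) = 0 := by
        intro F _ x
        show TermVal F t₁ x = TermVal F t₂ x ↔ _
        rw [hp₁, hp₂, map_sub, sub_eq_zero]
      by_cases h : FreeCommRing.lift y (p₁ - p₂) = 0
      · refine ⟨1, by simp, fun F₂ _ z hz _ => ?_⟩
        rw [key, key]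
        exact ⟨fun h => hz _ h, fun _ => h⟩
      · refine ⟨p₁ - p₂, h, fun F₂ _ z hz hz' => ?_⟩
        rw [key, key]
        exact ⟨fun h' => absurd h' h, fun h' => absurd h' hz'⟩
    · exact isEmptyElim R
  | imp h₁ h₂ ih₁ ih₂ =>
    obtain ⟨a, ha, ha'⟩ := ih₁
    obtain ⟨b, hb, hb'⟩ := ih₂
    refine ⟨a * b, by rw [map_mul]; exact mul_ne_zero ha hb, fun F₂ _ z hz hz' => ?_⟩
    rw [map_mul] at hz'
    have e1 := ha' F₂ z hz (left_ne_zero_of_mul hz')
    have e2 := hb' F₂ z hz (right_ne_zero_of_mul hz')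
    exact imp_congr e1 e2

theorem qf_spec {F₁ F₂ : Type} [Field F₁] [Field F₂] (hS : Spec F₁ F₂) {m : ℕ}
    {θ : Language.ring.BoundedFormula Empty m} (hθ : θ.IsQF) (y : Fin m → F₁)
    (hy : HoldsAt F₁ θ y) : ∃ z : Fin m → F₂, HoldsAt F₂ θ z := by
  obtain ⟨h, hh, hh'⟩ := qf_transfer F₁ hθ y
  obtain ⟨z, hz⟩ := hS (Option (Fin m))
    (fun o => match o with
      | some i => y i
      | none => (FreeCommRing.lift y h)⁻¹)
  refine ⟨fun i => z (some i), (hh' F₂ _ ?_ ?_).1 hy⟩
  · intro p hp
    have h1 := hz (FreeCommRing.map some p) (by rw [lift_map]; exact hp)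
    rw [lift_map] at h1
    exact h1
  · have h1 := hz (FreeCommRing.map some h * FreeCommRing.of none - 1) (by
      rw [map_sub, map_mul, lift_map, FreeCommRing.lift_of, map_one]
      have : FreeCommRing.lift ((fun o : Option (Fin m) => match o with
        | some i => y i
        | none => (FreeCommRing.lift y h)⁻¹) ∘ some) h = FreeCommRing.lift y h := rfl
      rw [this, mul_inv_cancel₀ hh, sub_self])
    rw [map_sub, map_mul, lift_map, FreeCommRing.lift_of, map_one, sub_eq_zero] at h1
    intro h0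
    have h2 : FreeCommRing.lift (z ∘ some) h = 0 := h0
    rw [h2, zero_mul] at h1
    exact zero_ne_one h1

theorem sigma1_spec {F₁ F₂ : Type} [Field F₁] [Field F₂] (hS : Spec F₁ F₂) {b : Bool} {n m : ℕ}
    {φ : Language.ring.BoundedFormula Empty m} (hφ : Alt b n φ) (hb : b = true) (hn : n = 1)
    (y : Fin m → F₁) (hy : HoldsAt F₁ φ y) : ∃ z : Fin m → F₂, HoldsAt F₂ φ z := by
  induction hφ with
  | ex_one h =>
    let _ := FirstOrder.Ring.compatibleRingOfRing F₁
    let _ := FirstOrder.Ring.compatibleRingOfRing F₂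
    obtain ⟨a, ha⟩ := realize_ex.1 hy
    obtain ⟨z, hz⟩ := qf_spec hS h _ ha
    refine ⟨Fin.init z, realize_ex.2 ⟨z (Fin.last _), ?_⟩⟩
    rw [Fin.snoc_init_self]
    exact hz
  | all_one h => cases hb
  | ex_same h ih =>
    let _ := FirstOrder.Ring.compatibleRingOfRing F₁
    let _ := FirstOrder.Ring.compatibleRingOfRing F₂
    obtain ⟨a, ha⟩ := realize_ex.1 hy
    obtain ⟨z, hz⟩ := ih hb hn _ ha
    refine ⟨Fin.init z, realize_ex.2 ⟨z (Fin.last _), ?_⟩⟩
    rw [Fin.snoc_init_self]
    exact hz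
  | all_same h ih => cases hb
  | ex_new h ih =>
    exfalso
    have : ∀ {b n m} {φ : Language.ring.BoundedFormula Empty m}, Alt b n φ → 1 ≤ n := by
      intro b n m φ h
      induction h <;> omega
    have := this h
    omega
  | all_new h ih => cases hb

theorem one_le_of_alt {L : Language} {b : Bool} {n m : ℕ} {φ : L.BoundedFormula Empty m}
    (h : Alt b n φ) : 1 ≤ n := by
  induction h <;> omega

theorem holds_of_spec {F₁ F₂ : Type} [Field F₁] [Field F₂] (hS : Spec F₁ F₂)
    {φ : Language.ring.Sentence} (hφ : Alt true 1 φ) (h : Holds F₁ φ) : Holds F₂ φ := by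
  obtain ⟨z, hz⟩ := sigma1_spec hS hφ rfl rfl default h
  have : z = default := Subsingleton.elim _ _
  rw [this] at hz
  exact hz

/-- The embedding of the rational function fields. -/
theorem spec_emb : Spec (RatFunc Ralg) (RatFunc ℝ) :=
  (Spec.of_hom (algebraMap Ralg ℝ)).ratFunc

/-- The least number of quantifier blocks of a separating existential-first sentence is `2`. -/
theorem isLeast_two : IsLeast {n : ℕ | ∃ φ : Language.ring.Sentence, Alt true n φ ∧
    ¬ (Holds (RatFunc Ralg) φ ↔ Holds (RatFunc ℝ) φ)} 2 := by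
  constructor
  · obtain ⟨φ, h1, h2, h3⟩ := exists_sigma2
    exact ⟨φ, h1, fun h => h3 (h.2 h2)⟩
  · rintro n ⟨φ, h1, h2⟩
    have h3 := one_le_of_alt h1
    by_contra h4
    have h5 : n = 1 := by omega
    subst h5
    apply h2
    exact ⟨holds_of_spec spec_emb h1, holds_of_spec spec_real.ratFunc h1⟩

end Pool.Agent.H.MP_397872_lc
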